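import Pool.Agent.MP_8d06cc_nt.AB.Spec

/-! Auxiliary facts: algebraic elements, jets, transport of normal forms. -/

set_option autoImplicit false

namespace Pool.Agent.MP_8d06cc_nt.AB

open Polynomial Filter Topology

noncomputable section

section alg

variable {E : Type} [Field E] [CharZero E] {d : ℕ} (t : Fin d → E)

/-- the field of elements algebraic over the field generated by `t` -/
def AC : IntermediateField (IntermediateField.adjoin ℚ (Set.range t)) E := algebraicClosure _ _

variable {t}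

theorem mem_AC {u : E} : u ∈ AC t ↔ Alg t u := mem_algebraicClosure_iff

theorem alg_root {U : E[X]} (h0 : U ≠ 0) (hc : ∀ i, U.coeff i ∈ AC t) {x : E}
    (hx : U.eval x = 0) : x ∈ AC t := by
  obtain ⟨P, hP⟩ : ∃ P : (AC t)[X], P.map (algebraMap (AC t) E) = U :=
    (mem_lifts _).1 ((lifts_iff_coeff_lifts _).2 fun i => ⟨⟨_, hc i⟩, rfl⟩)
  have hP0 : P ≠ 0 := fun h => h0 (by rw [← hP, h, Polynomial.map_zero])
  have a : IsAlgebraic (AC t) x := ⟨P, hP0, by rw [aeval_def, ← eval_map, hP, hx]⟩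
  have : Algebra.IsAlgebraic (IntermediateField.adjoin ℚ (Set.range t)) (AC t) :=
    algebraicClosure.isAlgebraic _ _
  exact mem_AC.2 (a.restrictScalars _)

theorem fil_sub {G : Set E} (hG : ∀ g ∈ G, g ∈ AC t) (D : ℕ) : ∀ u ∈ Fil G D, u ∈ AC t := by
  let S : Subalgebra ℚ E := (AC t).toSubalgebra.restrictScalars ℚ
  have h1 : Submodule.span ℚ (insert 1 G) ≤ S.toSubmodule := by
    rw [Submodule.span_le]
    rintro g (rfl | hg)
    · exact S.one_mem
    · exact hG g hg
  intro u hu
  refine Submodule.pow_induction_on_left _ (C := fun u => u ∈ AC t) (fun r => ?_)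
    (fun _ _ => add_mem) (fun a ha b hb => mul_mem (h1 ha) hb) hu
  exact S.algebraMap_mem r

theorem Small.alg {G : Set E} (hG : ∀ g ∈ G, g ∈ AC t) {D : ℕ} {u : E} (h : Small G D u) :
    u ∈ AC t := by
  obtain ⟨x, U, h0, -, hc, hx, hu⟩ := h
  have a := alg_root h0 (fun i => fil_sub hG D _ (hc i)) hx
  rcases hu with rfl | ⟨p, -, hp, hu⟩
  · exact a
  · have b : p.eval x ∈ AC t := by
      rw [eval_eq_sum_range]
      exact sum_mem fun i _ => mul_mem (fil_sub hG 1 _ (hp i)) (pow_mem a i)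
    refine alg_root (U := X ^ 2 - C (p.eval x)) (X_pow_sub_C_ne_zero two_pos _) (fun i => ?_)
      (by simp [hu])
    rw [coeff_sub, coeff_X_pow, coeff_C]
    refine sub_mem ?_ ?_ <;> split_ifs <;> first | exact one_mem _ | exact zero_mem _ | exact b

theorem Small.mono {G G' : Set E} (hG : G ⊆ G') {D : ℕ} {u : E} (h : Small G D u) :
    Small G' D u := by
  have m : ∀ D, Fil G D ≤ Fil G' D := fun D =>
    pow_le_pow_left' (Submodule.span_mono (Set.insert_subset_insert hG)) D
  obtain ⟨x, U, h0, h1, hc, hx, hu⟩ := h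
  exact ⟨x, U, h0, h1, fun i => m D (hc i), hx,
    hu.imp id fun ⟨p, a, b, c⟩ => ⟨p, a, fun i => m 1 (b i), c⟩⟩

theorem exists_basis (W : Set E) (hW : W.Finite) : ∃ (d : ℕ) (t : Fin d → E),
    AlgebraicIndependent ℚ t ∧ (∀ i, t i ∈ W) ∧ ∀ w ∈ W, Alg t w := by
  obtain ⟨I, hI⟩ := (AlgebraicIndependent.matroid ℚ E).exists_isBasis W (by simp)
  have hf : I.Finite := hW.subset hI.subset
  have := hf.fintype
  let q := (Fintype.equivFin I).symm
  have hi : AlgebraicIndependent ℚ ((↑) : I → E) :=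
    AlgebraicIndependent.matroid_indep_iff.1 hI.indep
  have hr : Set.range (fun i => (q i : E)) = I := by
    ext u
    exact ⟨fun ⟨i, hi⟩ => hi ▸ (q i).2, fun hu => ⟨q.symm ⟨u, hu⟩, by simp⟩⟩
  refine ⟨_, fun i => q i, hi.comp q q.injective, fun i => hI.subset (q i).2, fun w hw => ?_⟩
  have := hI.subset_closure hw
  rw [AlgebraicIndependent.matroid_closure_eq] at this
  unfold Alg
  rw [hr]
  exact IntermediateField.isAlgebraic_adjoin_iff.2 this

theorem coeff_fin {R : Type} [CommRing R] (p : R[X]) : (Set.range p.coeff).Finite := by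
  classical
  refine ((p.support.image p.coeff).finite_toSet.insert 0).subset ?_
  rintro _ ⟨i, rfl⟩
  by_cases h : p.coeff i = 0
  · exact Or.inl h
  · exact Or.inr (by simpa using ⟨i, h, rfl⟩)

theorem unit_of {R : Subalgebra ℚ E} {u : R} (h0 : (u : E) ≠ 0) (h : (u : E)⁻¹ ∈ R) : IsUnit u :=
  IsUnit.of_mul_eq_one ⟨_, h⟩ (Subtype.ext (mul_inv_cancel₀ h0))

theorem inv_mem_of {R : Subalgebra ℚ E} {u : R} (h : IsUnit u) : (u : E)⁻¹ ∈ R := by
  obtain ⟨v, hv⟩ := h.exists_right_inv
  have : (u : E) * v = 1 := congrArg Subtype.val hv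
  rw [← eq_inv_of_mul_eq_one_right this]
  exact v.2

end alg

theorem fz_map {R S : Type} [CommRing R] [CommRing S] (h : R →+* S) (e : Fin 8 → R) :
    (fz e).map h = fz fun i => h (e i) := by
  simp [fz, Polynomial.map_prod]

theorem fz_monic {R : Type} [CommRing R] (e : Fin 8 → R) : (fz e).Monic :=
  monic_prod_of_monic _ _ fun _ _ => monic_X_sub_C _

theorem fz_deg {R : Type} [CommRing R] [Nontrivial R] (e : Fin 8 → R) : (fz e).natDegree = 8 := by
  rw [fz, natDegree_prod_of_monic _ _ fun _ _ => monic_X_sub_C _]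
  simp

namespace Jet

variable {R : Type} [CommRing R] (J : Jet R)

theorem zero : J.dt 0 = 0 := by simpa using J.add 0 0

theorem one : J.dt 1 = 0 := by simpa using J.mul 1 1

theorem pow (x : R) (n : ℕ) : J.dt (x ^ (n + 1)) = (n + 1) * J.ev x ^ n * J.dt x := by
  induction n with
  | zero => simp
  | succ n ih => rw [pow_succ, J.mul, ih, map_pow]; push_cast; ring

theorem eval (p : R[X]) (x : R) (h : ∀ i, J.dt (p.coeff i) = 0) :
    J.dt (p.eval x) = J.ev (p.derivative.eval x) * J.dt x := by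
  have key : ∀ s : Finset ℕ, J.dt (∑ i ∈ s, p.coeff i * x ^ i) =
      J.ev (∑ i ∈ s, p.coeff i * i * x ^ (i - 1)) * J.dt x := fun s => by
    induction s using Finset.induction_on with
    | empty => simpa using J.zero
    | insert i s hi ih =>
      rw [Finset.sum_insert hi, Finset.sum_insert hi, J.add, ih, J.mul, h, map_add]
      cases i with
      | zero => simp [J.one]
      | succ i => rw [J.pow]; simp; ring
  rw [eval_eq_sum, derivative_eval]
  exact key _

end Jet

section fam

variable {E : Type} [Field E] [CharZero E] {d : ℕ} {t : Fin d → E} {R : Subalgebra ℚ E}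
  (F : Fam t R) {τ : Fin d → ℂ}

theorem Fam.diff (hτ : τ ∈ F.V) (r : R) : DifferentiableAt ℂ (fun σ => F.Y σ r) τ :=
  ((F.sm r).contDiffAt (F.op.mem_nhds hτ)).differentiableAt (by norm_num)

/-- the jet at a point of the family -/
def Fam.jet (hτ : τ ∈ F.V) (ξ : Fin d → ℂ) : Jet R where
  ev := F.Y τ
  dt := F.D τ ξ
  add a b := by
    simp only [Fam.D, map_add]
    rw [fderiv_fun_add (F.diff hτ a) (F.diff hτ b)]
    rfl
  mul a b := by
    simp only [Fam.D, map_mul]
    rw [fderiv_fun_mul (F.diff hτ a) (F.diff hτ b)]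
    simp

theorem Fam.D_t (hτ : τ ∈ F.V) (ξ : Fin d → ℂ) (i : Fin d) : F.D τ ξ ⟨t i, F.mem i⟩ = ξ i := by
  have : (fun σ => F.Y σ ⟨t i, F.mem i⟩) =ᶠ[𝓝 τ] fun σ => σ i :=
    Filter.eventually_of_mem (F.op.mem_nhds hτ) fun σ hσ => F.crd σ hσ i
  rw [Fam.D, this.fderiv_eq, (hasFDerivAt_apply i τ).fderiv]
  rfl

end fam

section nf

variable {k K : Type} [Field k] [Field K] {m : ℕ}

/-- transport of a normal form -/
def NF.map (z : NF k m) (h : k →+* K) : NF K m where
  f := z.f.map h
  a i := h (z.a i)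
  b i := h (z.b i)
  mon := z.mon.map h
  deg := by rw [natDegree_map, z.deg]
  sep := z.sep.map
  a0 := by rw [z.a0, map_zero]
  a1 := by rw [z.a1, map_one]
  ainj := h.injective.comp z.ainj
  hb i := by rw [← map_pow, z.hb, eval_map_apply]
  b0 i := (map_ne_zero h).2 (z.b0 i)

theorem NF.Tor.map {z : NF k m} {N : ℕ} {T : TD k m} (hT : z.Tor N T) (h : k →+* K) :
    (z.map h).Tor N (T.map h) where
  dA0 := by simpa [TD.map] using hT.dA0
  dB0 := by simpa [TD.map] using hT.dB0
  eq0 := by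
    obtain ⟨c, c0, hc⟩ := hT.eq0
    exact ⟨h c, (map_ne_zero h).2 c0, by simpa [TD.map, NF.map] using congrArg (Polynomial.map h) hc⟩
  dA i := by simpa [TD.map] using hT.dA i
  dB i := by simpa [TD.map] using hT.dB i
  eqn i := by
    obtain ⟨c, c0, hc⟩ := hT.eqn i
    exact ⟨h c, (map_ne_zero h).2 c0, by simpa [TD.map, NF.map] using congrArg (Polynomial.map h) hc⟩
  hA i := by
    simp only [TD.map, NF.map, eval_map_apply]
    exact (map_ne_zero h).2 (hT.hA i)
  sgn i := by
    simp only [TD.map, NF.map, eval_map_apply]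
    rw [← map_mul, ← map_add, hT.sgn, map_zero]

theorem exists_roots [IsAlgClosed K] {f : K[X]} (hm : f.Monic) (hd : f.natDegree = 8) :
    ∃ e : Fin 8 → K, f = fz e := by
  have hs := IsAlgClosed.splits f
  have hc : f.roots.toList.length = 8 := by
    rw [Multiset.length_toList, ← hs.natDegree_eq_card_roots, hd]
  refine ⟨fun i => f.roots.toList.get (i.cast hc.symm), ?_⟩
  conv_lhs => rw [hs.eq_prod_roots_of_monic hm, ← Multiset.coe_toList f.roots]
  rw [Multiset.map_coe, Multiset.prod_coe, fz]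
  conv_lhs => rw [← List.ofFn_get f.roots.toList]
  rw [List.map_ofFn, List.prod_ofFn]
  exact (Fin.prod_congr' _ hc.symm).symm

end nf

theorem vdm {ι : Type} [Fintype ι] (hι : Fintype.card ι ≤ 3) {x c : ι → ℂ}
    (hx : Function.Injective x) (h : ∀ j : Fin 3, ∑ p, c p * x p ^ (j : ℕ) = 0) : c = 0 := by
  let q := (Fintype.equivFin ι).symm
  have := Matrix.eq_zero_of_forall_pow_sum_mul_pow_eq_zero (f := x ∘ q) (v := c ∘ q)
    (hx.comp q.injective) fun i => by
      have := h (i.castLE hι)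
      rw [← q.sum_comp] at this
      exact this
  funext p
  simpa using congrFun this (q.symm p)

end

end Pool.Agent.MP_8d06cc_nt.AB
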