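import Pool.Agent.MP_8d06cc_nt.AB.Core1

/-! The height of the parameters vanishes. -/

set_option autoImplicit false

namespace Pool.Agent.MP_8d06cc_nt.AB

open Polynomial Filter Topology

noncomputable section

theorem zero_of_mul {a : ENNReal} {K : ℕ} (h : ∀ n : ℕ, ∃ D : ℕ, n ≤ D ∧ D * a ≤ K) : a = 0 := by
  by_contra h0
  obtain ⟨n, hn⟩ := ENNReal.exists_nat_mul_gt h0 (ENNReal.natCast_ne_top K)
  obtain ⟨D, h1, h2⟩ := h n
  exact absurd (le_trans (by gcongr) h2) hn.not_ge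

theorem key (hA : StmtAN) (hB : StmtHB) {E : Type} [Field E] [CharZero E] [IsAlgClosed E] {d : ℕ}
    {t : Fin d → E} {R : Subalgebra ℚ E} (F : Fam t R) (e : Fin 8 → R) {n : ℕ} {ι : Fin n → Type}
    [∀ i, Fintype (ι i)] (x y : ∀ i, ι i → R) (m : ∀ i, ι i → ℤ) (ν : Fin n → ℤ) {κ : Type}
    [Fintype κ] (kap : κ → R) (ht : AlgebraicIndependent ℚ t) (hR : ∀ a ∈ R, Alg t a)
    (he : ∀ i j, i ≠ j → IsUnit (e i - e j)) (hp : ∀ i, Pts e (x i) (y i))
    (nd : ND F e x y m ν kap) {h : E → ENNReal} (hh : Ht h) (hk : ∀ l, h (kap l) = 0) (B c : ℕ)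
    (hc : 0 < c)
    (hS : ∀ k, 0 < k → ∀ i, ∃ S : Step (fun k => (e k : E)) (fun p => (x i p : E))
      (fun p => (y i p : E)) (m i) (ν i) (4 * k), ∀ q, (h (S.x' q) ≤ B ∧ h (S.y' q) ≤ B) ∧
        Small (gens (fun k => (e k : E)) (fun p => (x i p : E)) fun p => (y i p : E))
          (c * k ^ 2) (S.x' q) ∧
        Small (gens (fun k => (e k : E)) (fun p => (x i p : E)) fun p => (y i p : E))
          (c * k ^ 2) (S.y' q)) (j : Fin d) : h (t j) = 0 := by
  obtain ⟨c0, N0, hc0, hN⟩ := hA E d t R F e n ι x y m ν κ kap ht hR he hp nd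
  let G : Set E := Set.range t ∪ (Set.range fun l => (kap l : E)) ∪
    ⋃ i, gens (fun k => (e k : E)) (fun p => (x i p : E)) fun p => (y i p : E)
  have gf : G.Finite := ((Set.finite_range _).union (Set.finite_range _)).union
    (Set.finite_iUnion fun i => (((coeff_fin _).union (Set.finite_range _)).union
      (Set.finite_range _)).union (Set.finite_range _))
  have gR : ∀ g ∈ G, g ∈ R := by
    rintro g ((⟨i, rfl⟩ | ⟨l, rfl⟩) | hg)
    · exact F.mem i
    · exact (kap l).2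
    · obtain ⟨i, ((⟨k, rfl⟩ | ⟨p, rfl⟩) | ⟨p, rfl⟩) | ⟨p, rfl⟩⟩ := Set.mem_iUnion.1 hg
      · have := fz_map (R.val : R →+* E) e
        have e2 : fz (fun k => (e k : E)) = (fz e).map (R.val : R →+* E) := this.symm
        rw [e2, coeff_map]
        exact ((fz e).coeff k).2
      · exact (x i p).2
      · exact (y i p).2
      · exact inv_mem_of ((hp i).uy p)
  have gs : ∀ i, gens (fun k => (e k : E)) (fun p => (x i p : E)) (fun p => (y i p : E)) ⊆ G :=
    fun i => (Set.subset_iUnion (fun i => gens (fun k => (e k : E)) (fun p => (x i p : E))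
      fun p => (y i p : E)) i).trans Set.subset_union_right
  have gA : ∀ g ∈ G, g ∈ AC t := fun g hg => mem_AC.2 (hR g (gR g hg))
  have c1 : (0 : ℝ) < c := by exact_mod_cast hc
  have c1' : (1 : ℝ) ≤ c := by exact_mod_cast hc
  obtain ⟨K, hK⟩ := hB E d t G ht gf (fun g hg => hR g (gR g hg))
    (fun i => Or.inl (Or.inl ⟨i, rfl⟩)) (c0 / c ^ d) (by positivity)
  refine zero_of_mul (K := K * (d * B)) fun n0 => ?_
  obtain ⟨k, hk'⟩ : ∃ k, k = N0 + n0 + 1 := ⟨_, rfl⟩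
  have k0 : 0 < k := by omega
  have k1 : N0 ≤ 4 * k := by omega
  have h8 : n0 ≤ c * k ^ 2 :=
    le_trans (le_trans (by omega : n0 ≤ k) (Nat.le_self_pow two_ne_zero k))
      (Nat.le_mul_of_pos_left _ hc)
  choose S hS using hS k k0
  have sm : ∀ i q, Small G (c * k ^ 2) ((S i).x' q) ∧ Small G (c * k ^ 2) ((S i).y' q) :=
    fun i q => ⟨Small.mono (gs i) (hS i q).2.1, Small.mono (gs i) (hS i q).2.2⟩
  obtain ⟨s, I, g, g0, hb, h1, h2, h3⟩ := hN (4 * k) k1 S fun i q =>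
    ⟨mem_AC.1 (Small.alg gA (sm i q).1), mem_AC.1 (Small.alg gA (sm i q).2)⟩
  have hI : I.card ≤ d := by simpa using I.card_le_univ
  have h4 : c0 / c ^ d * ((c * k ^ 2 : ℕ) : ℝ) ^ I.card ≤ g := by
    refine le_trans ?_ h3
    push_cast
    rw [mul_pow, ← mul_assoc, pow_mul]
    have a1 : c0 / c ^ d * (c : ℝ) ^ I.card ≤ c0 := by
      rw [div_mul_eq_mul_div, div_le_iff₀ (by positivity)]
      gcongr
    have a2 : (k : ℝ) ^ 2 ≤ (4 * k) ^ 2 := by nlinarith [sq_nonneg (k : ℝ)]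
    gcongr
  have h5 := hK h (c * k ^ 2) g s I hh (by positivity) g0 hb h4
    (fun i hi => by
      obtain ⟨i', q, e1 | e1⟩ := h1 i hi
      · rw [e1]; exact (sm i' q).1
      · rw [e1]; exact (sm i' q).2)
    (fun i hi => by
      obtain ⟨l, e1⟩ := h2 i hi
      exact Or.inl (Or.inr ⟨l, e1.symm⟩)) j
  have h6 : ∑ i ∈ Iᶜ, h (s i) = 0 := Finset.sum_eq_zero fun i hi => by
    obtain ⟨l, e1⟩ := h2 i (Finset.mem_compl.1 hi)
    rw [e1, hk]
  have h7 : ∑ i ∈ I, h (s i) ≤ d * B := by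
    refine (Finset.sum_le_card_nsmul I _ (B : ENNReal) fun i hi => ?_).trans ?_
    · obtain ⟨i', q, e1 | e1⟩ := h1 i hi
      · rw [e1]; exact (hS i' q).1.1
      · rw [e1]; exact (hS i' q).1.2
    · rw [nsmul_eq_mul]
      gcongr
  refine ⟨c * k ^ 2, h8, h5.trans ?_⟩
  rw [h6, mul_zero, add_zero]
  push_cast
  gcongr

theorem all_zero (h0 : StmtH0) {E : Type} [Field E] [CharZero E] {d : ℕ} {t : Fin d → E}
    {h : E → ENNReal} (hh : Ht h) (ht : ∀ j, h (t j) = 0) {u : E} (hu : Alg t u) : h u = 0 := by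
  obtain ⟨K, hK⟩ := h0 E d t u hu
  simpa [ht] using hK h hh

end

end Pool.Agent.MP_8d06cc_nt.AB
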