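import Pool.Agent.MP_8d06cc_nt.AB.Core2

/-! Passing from sequences to the ultrapower. -/

set_option autoImplicit false

namespace Pool.Agent.MP_8d06cc_nt.AB

open Polynomial Filter Topology
open MP_216eb3_nt.H66 (Qb Ks gm h1 h1_nonneg)

noncomputable section

/-- an embedding of the algebraic numbers -/
def emb : Qb →+* ℂ :=
  haveI : Algebra.IsAlgebraic ℚ Qb := AlgebraicClosure.isAlgebraic ℚ
  (IsAlgClosed.lift : Qb →ₐ[ℚ] ℂ).toRingHom

theorem gm_eq {u v : ℕ → Qb} : gm u = gm v ↔ ∀ᶠ j in hyperfilter ℕ, u j = v j := Germ.coe_eq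

theorem ult_const {α : Type} (f : ℕ → α) {S : Set α} (hS : S.Finite) (h : ∀ j, f j ∈ S) :
    ∃ a, ∀ᶠ j in hyperfilter ℕ, f j = a := by
  obtain ⟨a, -, ha⟩ := Ultrafilter.eq_pure_of_finite_mem (f := (hyperfilter ℕ).map f) hS
    (Ultrafilter.mem_map.2 (Filter.univ_mem' h))
  refine ⟨a, ?_⟩
  have : ({a} : Set α) ∈ (hyperfilter ℕ).map f := by rw [ha]; simp
  exact this

theorem ult_big {ι : Type} [Fintype ι] [Nonempty ι] (u : ι → ℕ → ℝ) :
    ∃ i, ∀ᶠ j in hyperfilter ℕ, (Fintype.card ι : ℝ)⁻¹ * ∑ i', u i' j ≤ u i j := by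
  have : ∀ j, ∃ i, ∀ i', u i' j ≤ u i j := fun j => Finite.exists_max fun i => u i j
  choose s hs using this
  obtain ⟨i, hi⟩ := ult_const s Set.finite_univ fun _ => trivial
  refine ⟨i, hi.mono fun j hj => ?_⟩
  have c0 : (0 : ℝ) < Fintype.card ι := by exact_mod_cast Fintype.card_pos
  rw [inv_mul_le_iff₀ c0, ← hj]
  simpa using Finset.sum_le_card_nsmul Finset.univ _ _ fun i' _ => hs j i'

theorem coeff_gm (e : ℕ → Fin 8 → Qb) (k : ℕ) :
    (fz fun i => gm fun j => e j i).coeff k = gm fun j => (fz (e j)).coeff k := by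
  rw [← fz_map gm fun i j => e j i, coeff_map]
  congr 1
  funext j
  have := fz_map (Pi.evalRingHom (fun _ : ℕ => Qb) j) fun i j => e j i
  exact (coeff_map (Pi.evalRingHom (fun _ : ℕ => Qb) j) k).symm.trans (congrArg (fun p => p.coeff k) this)

theorem setup (hU : StmtULT) (hN : StmtINIT) (W U : Set (ℕ → Qb)) (hW : W.Finite) (hf : U.Finite)
    (ha : ∀ (d : ℕ) (t : Fin d → Ks), (∀ w ∈ W, gm w ∈ AC t) → ∀ u ∈ U, gm u ∈ AC t) :
    ∃ (d : ℕ) (t : Fin d → Ks) (R : Subalgebra ℚ Ks), AlgebraicIndependent ℚ t ∧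
      (∀ i, ∃ w ∈ W, gm w = t i) ∧ (∀ a ∈ R, Alg t a) ∧ (∀ u ∈ U, gm u ∈ R) ∧
      ∀ᶠ j in hyperfilter ℕ, ∃ F : Fam t R, ∃ τ ∈ F.V, ∀ u ∈ U, ∀ h : gm u ∈ R,
        F.Y τ ⟨gm u, h⟩ = emb (u j) := by
  obtain ⟨d, t, ht, h1, h2⟩ := exists_basis (gm '' W) (hW.image _)
  have h3 := ha d t fun w hw => mem_AC.2 (h2 _ ⟨w, hw, rfl⟩)
  obtain ⟨G, gf, gs, ga, gy⟩ := hN Ks d t (gm '' U) ht (hf.image _) (by
    rintro _ ⟨u, hu, rfl⟩
    exact mem_AC.1 (h3 u hu))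
  have sj : Function.Surjective gm := fun x => Germ.inductionOn x fun f => ⟨f, rfl⟩
  have eG : gm '' (U ∪ Function.surjInv sj '' G) = G := by
    rw [Set.image_union, Set.image_image]
    simp only [Function.surjInv_eq, Set.image_id']
    exact Set.union_eq_self_of_subset_left gs
  have uf : (U ∪ Function.surjInv sj '' G).Finite := hf.union (gf.image _)
  have us : U ⊆ U ∪ Function.surjInv sj '' G := Set.subset_union_left
  generalize U ∪ Function.surjInv sj '' G = U' at eG uf us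
  subst eG
  refine ⟨d, t, _, ht, h1, ga, fun u hu => Algebra.subset_adjoin ⟨u, us hu, rfl⟩,
    (hU.sp U' uf).mono ?_⟩
  rintro j ⟨ev, hev⟩
  obtain ⟨F, τ, hτ, hY⟩ := gy (emb.comp ev)
  exact ⟨F, τ, hτ, fun u hu h => by rw [hY, RingHom.comp_apply, hev u (us hu)]⟩

theorem pts_sub {ι : Type} {R : Subalgebra ℚ Ks} {e : Fin 8 → R} {x y : ι → R}
    (h : Pts (fun i => (e i : Ks)) (fun p => (x p : Ks)) fun p => (y p : Ks))
    (h1 : ∀ i j, ((e i : Ks) - e j)⁻¹ ∈ R) (h2 : ∀ p q, ((x p : Ks) - x q)⁻¹ ∈ R)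
    (h3 : ∀ p, (y p : Ks)⁻¹ ∈ R) : Pts e x y where
  de i j hij := unit_of (h.de i j hij).ne_zero (h1 i j)
  dx p q hpq := unit_of (h.dx p q hpq).ne_zero (h2 p q)
  uy p := unit_of (h.uy p).ne_zero (h3 p)
  eqn p := Subtype.ext (by
    have e2 : fz (fun k => (e k : Ks)) = (fz e).map (R.val : R →+* Ks) :=
      (fz_map (R.val : R →+* Ks) e).symm
    have := h.eqn p
    rw [e2] at this
    exact this.trans (eval_map_apply (p := fz e) (R.val : R →+* Ks) (x p)))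

theorem Pts.inl {R ι ι' : Type} [CommRing R] {e : Fin 8 → R} {x y : ι → R} {x' y' : ι' → R}
    (h : Pts e (Sum.elim x x') (Sum.elim y y')) : Pts e x y :=
  ⟨h.de, fun p q hpq => h.dx (.inl p) (.inl q) (by simpa using hpq), fun p => h.uy (.inl p),
    fun p => h.eqn (.inl p)⟩

theorem root_AC {d : ℕ} {t : Fin d → Ks} (e : ℕ → Fin 8 → Qb)
    (h : ∀ k : Fin 8, (gm fun j => (fz (e j)).coeff k) ∈ AC t) (i : Fin 8) :
    (gm fun j => e j i) ∈ AC t := by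
  refine alg_root (fz_monic fun i => gm fun j => e j i).ne_zero (fun k => ?_) (by
    rw [fz, eval_prod]
    exact Finset.prod_eq_zero (Finset.mem_univ i) (by simp))
  rcases lt_trichotomy k 8 with hk | rfl | hk
  · rw [coeff_gm]; exact h ⟨k, hk⟩
  · have := (fz_monic fun i => gm fun j => e j i).coeff_natDegree
    rw [fz_deg] at this
    rw [this]; exact one_mem _
  · rw [coeff_eq_zero_of_natDegree_lt (by rw [fz_deg]; exact hk)]; exact zero_mem _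

/-- the closure property of block RED -/
def Clo (e : ℕ → Fin 8 → Qb) (𝒟 : ℕ → Set (Dv Qb)) (c : ℕ) : Prop :=
  ∀ (D : ℕ → Dv Qb) (n : Fin 3 → ℕ) (β : Finset (Fin 8)) (μ : ℕ),
    (∀ᶠ j in hyperfilter ℕ, D j ∈ 𝒟 j ∧ (D j).n = n ∧ (D j).β = β ∧ (D j).μ = μ) →
    ∀ k : ℕ, 0 < k →
    ∃ S : Step (fun i => gm fun j => e j i) (fun p : Us n => gm fun j => (D j).x p)
        (fun p : Us n => gm fun j => (D j).y p) (fun p => (n p : ℤ))
        ((∑ p, n p + β.card + 2 * μ : ℕ) : ℤ) (4 * k),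
      ∀ q, (∃ u v : ℕ → Qb, gm u = S.x' q ∧ gm v = S.y' q ∧
          ∀ᶠ j in hyperfilter ℕ, ∃ D' ∈ 𝒟 j, ∃ p, D'.x p = u j ∧ D'.y p = v j) ∧
        Small (gens (fun i => gm fun j => e j i) (fun p : Us n => gm fun j => (D j).x p)
          fun p : Us n => gm fun j => (D j).y p) (c * k ^ 2) (S.x' q) ∧
        Small (gens (fun i => gm fun j => e j i) (fun p : Us n => gm fun j => (D j).x p)
          fun p : Us n => gm fun j => (D j).y p) (c * k ^ 2) (S.y' q)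

theorem Clo.bd {e : ℕ → Fin 8 → Qb} {𝒟 : ℕ → Set (Dv Qb)} {c : ℕ} (hC : Clo e 𝒟 c) {Λ : ℕ → ℝ}
    {h : Ks → ENNReal} (hu : ∀ (u : ℕ → Qb) (c : ℝ),
      (∀ᶠ j in hyperfilter ℕ, h1 (u j) ≤ c * Λ j) → h (gm u) ≤ ENNReal.ofReal c) {B : ℕ}
    (hB : ∀ᶠ j in hyperfilter ℕ, ∀ D ∈ 𝒟 j, ∀ p, h1 (D.x p) ≤ B * Λ j ∧ h1 (D.y p) ≤ B * Λ j)
    (D : ℕ → Dv Qb) (n : Fin 3 → ℕ) (β : Finset (Fin 8)) (μ : ℕ)
    (hD : ∀ᶠ j in hyperfilter ℕ, D j ∈ 𝒟 j ∧ (D j).n = n ∧ (D j).β = β ∧ (D j).μ = μ) (k : ℕ)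
    (hk : 0 < k) :
    ∃ S : Step (fun i => gm fun j => e j i) (fun p : Us n => gm fun j => (D j).x p)
        (fun p : Us n => gm fun j => (D j).y p) (fun p => (n p : ℤ))
        ((∑ p, n p + β.card + 2 * μ : ℕ) : ℤ) (4 * k),
      ∀ q, (h (S.x' q) ≤ B ∧ h (S.y' q) ≤ B) ∧
        Small (gens (fun i => gm fun j => e j i) (fun p : Us n => gm fun j => (D j).x p)
          fun p : Us n => gm fun j => (D j).y p) (c * k ^ 2) (S.x' q) ∧
        Small (gens (fun i => gm fun j => e j i) (fun p : Us n => gm fun j => (D j).x p)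
          fun p : Us n => gm fun j => (D j).y p) (c * k ^ 2) (S.y' q) := by
  obtain ⟨S, hS⟩ := hC D n β μ hD k hk
  refine ⟨S, fun q => ⟨?_, (hS q).2⟩⟩
  obtain ⟨u, v, e1, e2, h3⟩ := (hS q).1
  rw [← e1, ← e2, ← ENNReal.ofReal_natCast]
  constructor <;> refine hu _ _ ((h3.and hB).mono ?_) <;> rintro j ⟨⟨D', h4, p, h5, h6⟩, h7⟩
  · exact h5 ▸ (h7 D' h4 p).1
  · exact h6 ▸ (h7 D' h4 p).2

end

end Pool.Agent.MP_8d06cc_nt.AB
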