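import Pool.Agent.MP_8d06cc_nt.AB.Core3

/-! The heights of the reduced divisors are bounded by the height of the curve. -/

set_option autoImplicit false

namespace Pool.Agent.MP_8d06cc_nt.AB

open Polynomial Filter Topology
open MP_216eb3_nt.H66 (Qb Ks gm h1 h1_nonneg)

noncomputable section

theorem coe_coeff {R : Subalgebra ℚ Ks} (e : Fin 8 → R) (k : ℕ) :
    (((fz e).coeff k : R) : Ks) = (fz fun i => (e i : Ks)).coeff k := by
  have e2 : fz (fun k => (e k : Ks)) = (fz e).map (R.val : R →+* Ks) :=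
    (fz_map (R.val : R →+* Ks) e).symm
  rw [e2, coeff_map]
  rfl

theorem setup2 (hU : StmtULT) (hN : StmtINIT) (e : ℕ → Fin 8 → Qb) {ι : Type} [Finite ι]
    (x y : ι → ℕ → Qb)
    (hp : Pts (fun i => gm fun j => e j i) (fun p => gm (x p)) fun p => gm (y p)) :
    ∃ (d : ℕ) (t : Fin d → Ks) (R : Subalgebra ℚ Ks) (he : ∀ i, (gm fun j => e j i) ∈ R)
      (hx : ∀ p, gm (x p) ∈ R) (hy : ∀ p, gm (y p) ∈ R), AlgebraicIndependent ℚ t ∧
      (∀ a ∈ R, Alg t a) ∧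
      Pts (R := R) (fun i => ⟨_, he i⟩) (fun p => ⟨_, hx p⟩) (fun p => ⟨_, hy p⟩) ∧
      (∀ i (h : t i ∈ R), (∃ k : Fin 8, (⟨t i, h⟩ : R) = (fz fun i => (⟨_, he i⟩ : R)).coeff k) ∨
        (∃ p, (⟨t i, h⟩ : R) = ⟨_, hx p⟩) ∨ ∃ p, (⟨t i, h⟩ : R) = ⟨_, hy p⟩) ∧
      ∀ᶠ j in hyperfilter ℕ, ∃ F : Fam t R, ∃ τ ∈ F.V, (∀ i, F.Y τ ⟨_, he i⟩ = emb (e j i)) ∧
        (∀ p, F.Y τ ⟨_, hx p⟩ = emb (x p j)) ∧ ∀ p, F.Y τ ⟨_, hy p⟩ = emb (y p j) := by
  let a : Fin 8 ⊕ ι ⊕ ι → ℕ → Qb := Sum.elim (fun k j => (fz (e j)).coeff k) (Sum.elim x y)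
  let b : Fin 8 ⊕ ι ⊕ ι → ℕ → Qb := Sum.elim (fun i j => e j i) (Sum.elim x y)
  let c : (Fin 8 ⊕ ι ⊕ ι) ⊕ (Fin 8 ⊕ ι ⊕ ι) ⊕ (Fin 8 ⊕ ι ⊕ ι) × (Fin 8 ⊕ ι ⊕ ι) → ℕ → Qb :=
    Sum.elim b (Sum.elim (fun r => (b r)⁻¹) fun r => (b r.1 - b r.2)⁻¹)
  obtain ⟨d, t, R, ht, h1, h2, h3, h4⟩ := setup hU hN (Set.range a) (Set.range c)
    (Set.finite_range _) (Set.finite_range _) fun d t hw => by
      have hb : ∀ r, gm (b r) ∈ AC t := by
        rintro (i | p)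
        · exact root_AC e (fun k => hw _ ⟨.inl k, rfl⟩) i
        · exact hw _ ⟨.inr p, rfl⟩
      rintro _ ⟨r | r | r, rfl⟩
      · exact hb r
      · exact inv_mem (hb r)
      · exact inv_mem (sub_mem (hb r.1) (hb r.2))
  have hb : ∀ r, gm (b r) ∈ R := fun r => h3 _ ⟨.inl r, rfl⟩
  refine ⟨d, t, R, fun i => hb (.inl i), fun p => hb (.inr (.inl p)), fun p => hb (.inr (.inr p)),
    ht, h2, pts_sub hp (fun i j => h3 _ ⟨.inr (.inr (.inl i, .inl j)), rfl⟩)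
      (fun p q => h3 _ ⟨.inr (.inr (.inr (.inl p), .inr (.inl q))), rfl⟩)
      fun p => h3 _ ⟨.inr (.inl (.inr (.inr p))), rfl⟩, fun i h => ?_, h4.mono ?_⟩
  · obtain ⟨_, ⟨k | p | p, rfl⟩, hw⟩ := h1 i
    · exact Or.inl ⟨k, Subtype.ext (by rw [coe_coeff, coeff_gm]; exact hw.symm)⟩
    · exact Or.inr (Or.inl ⟨p, Subtype.ext hw.symm⟩)
    · exact Or.inr (Or.inr ⟨p, Subtype.ext hw.symm⟩)
  · rintro j ⟨F, τ, hτ, hY⟩
    exact ⟨F, τ, hτ, fun i => hY _ ⟨.inl (.inl i), rfl⟩ _,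
      fun p => hY _ ⟨.inl (.inr (.inl p)), rfl⟩ _, fun p => hY _ ⟨.inl (.inr (.inr p)), rfl⟩ _⟩

theorem nd2 (hR : StmtRN) {E : Type} [Field E] [CharZero E] {d : ℕ} {t : Fin d → E}
    {R : Subalgebra ℚ E} (F : Fam t R) {τ : Fin d → ℂ} (hτ : τ ∈ F.V) (e : Fin 8 → R) {ι : Type}
    [Fintype ι] (hι : Fintype.card ι ≤ 3) (x y : ι → R) (m : ι → ℤ) (hm : ∀ p, m p ≠ 0) (ν : ℤ)
    (hp : Pts e x y) (ht : ∀ i (h : t i ∈ R), (∃ k : Fin 8, (⟨t i, h⟩ : R) = (fz e).coeff k) ∨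
      (∃ p, (⟨t i, h⟩ : R) = x p) ∨ ∃ p, (⟨t i, h⟩ : R) = y p) :
    ND F e (ι := fun _ : Fin 1 => ι) (fun _ => x) (fun _ => y) (fun _ => m) (fun _ => ν)
      fun k : Fin 8 => (fz e).coeff k := by
  classical
  have ie : Function.Injective fun i => F.Y τ (e i) := fun i j h => by
    by_contra hij
    exact ((hp.de i j hij).map (F.Y τ)).ne_zero (by rw [map_sub]; exact sub_eq_zero.2 h)
  have ix : Function.Injective fun p => F.Y τ (x p) := fun i j h => by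
    by_contra hij
    exact ((hp.dx i j hij).map (F.Y τ)).ne_zero (by rw [map_sub]; exact sub_eq_zero.2 h)
  have sp : (fz fun i => F.Y τ (e i)).Separable := separable_prod_X_sub_C_iff.2 ie
  obtain ⟨rn⟩ := hR _ (Finset.univ.image fun p => F.Y τ (x p)) (fz_monic _) (fz_deg _) sp
  obtain ⟨s, -⟩ := rn.far ∅ (by simp)
  refine ⟨_, _, rn, s, τ, hτ, ⟨fz_monic _, fz_deg _, fun i => by simpa using rn.ε0⟩,
    fun _ p => ⟨_, Finset.mem_image_of_mem _ (Finset.mem_univ p), by simpa using rn.δ0⟩,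
    fun ξ h1 h2 => ?_⟩
  let J := F.jet hτ ξ
  have hc : ∀ k, J.dt ((fz e).coeff k) = 0 := fun k => by
    rcases lt_trichotomy k 8 with hk | rfl | hk
    · exact h2 ⟨k, hk⟩
    · have := (fz_monic e).coeff_natDegree
      rw [fz_deg] at this
      rw [this]; exact J.one
    · rw [coeff_eq_zero_of_natDegree_lt (by rw [fz_deg]; exact hk)]; exact J.zero
  have rt : ∀ {S : Type} [CommRing S] (e : Fin 8 → S) (i : Fin 8), (fz e).eval (e i) = 0 :=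
    fun e i => by
      rw [fz, eval_prod]
      exact Finset.prod_eq_zero (Finset.mem_univ i) (by simp)
  have de : ∀ i, F.D τ ξ (e i) = 0 := fun i => by
    have a := J.eval (fz e) (e i) hc
    rw [rt, J.zero] at a
    refine (mul_eq_zero.1 a.symm).resolve_left ?_
    have b := sp.eval₂_derivative_ne_zero (RingHom.id ℂ) (x := F.Y τ (e i))
      (by rw [eval₂_id]; exact rt (fun i => F.Y τ (e i)) i)
    rw [← fz_map, derivative_map, eval₂_id, eval_map_apply] at b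
    exact b
  have y0 : ∀ p, F.Y τ (y p) ≠ 0 := fun p => ((hp.uy p).map (F.Y τ)).ne_zero
  have dx : ∀ p, F.D τ ξ (x p) = 0 := fun p => by
    have a := vdm hι (c := fun p => m p * F.D τ ξ (x p) / F.Y τ (y p)) ix fun j => by
      have b := h1 0 j
      simp only [BtE, Bt, BtI, Sg, de, mul_zero, zero_mul, zero_div, Finset.sum_const_zero,
        add_zero] at b
      rw [← b]
      exact Finset.sum_congr rfl fun p _ => by ring
    have b := congrFun a p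
    simpa [hm p, y0 p] using b
  have dy : ∀ p, F.D τ ξ (y p) = 0 := fun p => by
    have a := J.eval (fz e) (x p) hc
    rw [← hp.eqn, J.pow] at a
    have b : J.dt (x p) = 0 := dx p
    have c : J.ev (y p) ≠ 0 := y0 p
    rw [b] at a
    have : J.dt (y p) = 0 := by simpa [c] using a
    exact this
  funext i
  rw [← F.D_t hτ ξ i]
  rcases ht i (F.mem i) with ⟨k, h⟩ | ⟨p, h⟩ | ⟨p, h⟩ <;> rw [h]
  · exact h2 k
  · exact dx p
  · exact dy p

theorem case2 (hU : StmtULT) (hG : StmtHGT) (h0 : StmtH0) (hB : StmtHB) (hA : StmtAN)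
    (hN : StmtINIT) (hR : StmtRN) {e : ℕ → Fin 8 → Qb} {𝒟 : ℕ → Set (Dv Qb)} {c : ℕ} (hc : 0 < c)
    (hC : Clo e 𝒟 c) (hf : ∀ j, (𝒟 j).Finite) (hr : ∀ j, ∀ D ∈ 𝒟 j, D.Red (e j))
    (hne : ∀ j, (𝒟 j).Nonempty) {H : ℕ → ℝ} (hH : Tendsto H (hyperfilter ℕ) atTop)
    (hco : ∀ j (k : Fin 8), h1 ((fz (e j)).coeff k) ≤ H j) : ∃ B : ℕ,
    ∀ᶠ j in hyperfilter ℕ, ∀ D ∈ 𝒟 j, ∀ p, h1 (D.x p) ≤ B * H j ∧ h1 (D.y p) ≤ B * H j := by
  by_contra hn
  let φ : Dv Qb → ℝ := fun D => ∑ r, h1 (Sum.elim D.x D.y r)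
  have hφ : ∀ D r, h1 (Sum.elim D.x D.y r) ≤ φ D := fun D r =>
    Finset.single_le_sum (f := fun r => h1 (Sum.elim D.x D.y r)) (fun _ _ => h1_nonneg _)
      (Finset.mem_univ r)
  choose D hD hm using fun j => Set.exists_max_image (𝒟 j) φ (hf j) (hne j)
  have hm' : ∀ j, ∀ D' ∈ 𝒟 j, ∀ p, h1 (D'.x p) ≤ φ (D j) ∧ h1 (D'.y p) ≤ φ (D j) :=
    fun j D' h p => ⟨(hφ D' (.inl p)).trans (hm j D' h), (hφ D' (.inr p)).trans (hm j D' h)⟩
  have big : ∀ B : ℕ, ∀ᶠ j in hyperfilter ℕ, B * H j ≤ φ (D j) := fun B => by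
    refine (Ultrafilter.eventually_not.2 fun h => hn ⟨B, h⟩).mono fun j hj => ?_
    by_contra hl
    exact hj fun D' h p => ⟨(hm' j D' h p).1.trans (not_le.1 hl).le,
      (hm' j D' h p).2.trans (not_le.1 hl).le⟩
  obtain ⟨h, hh, hu, hl⟩ := hG (fun j => φ (D j))
    (tendsto_atTop_mono' _ ((big 1).mono fun j hj => by simpa using hj) hH)
  have k0 : ∀ k : Fin 8, h (gm fun j => (fz (e j)).coeff k) = 0 := fun k => by
    refine zero_of_mul (K := 1) fun n => ⟨n + 1, n.le_succ, ?_⟩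
    have n0 : (0 : ℝ) < (n + 1 : ℕ) := by positivity
    have := hu (fun j => (fz (e j)).coeff k) ((n + 1 : ℕ) : ℝ)⁻¹ ((big (n + 1)).mono fun j hj => by
      rw [le_inv_mul_iff₀ n0]
      exact le_trans (by gcongr; exact hco j k) hj)
    rw [ENNReal.ofReal_inv_of_pos n0, ENNReal.ofReal_natCast] at this
    calc _ ≤ ((n + 1 : ℕ) : ENNReal) * ((n + 1 : ℕ) : ENNReal)⁻¹ := by gcongr
      _ ≤ _ := by simp
  obtain ⟨⟨n, β, μ⟩, hs⟩ := ult_const (fun j => ((D j).n, (D j).β, (D j).μ))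
    (S := Set.Iic (fun _ => 3) ×ˢ Set.univ ×ˢ Set.Iic 3)
    ((Set.finite_Iic _).prod (Set.finite_univ.prod (Set.finite_Iic _))) fun j => by
      have := (hr j _ (hD j)).deg
      unfold Dv.r at this
      refine ⟨fun p => ?_, trivial, ?_⟩
      · have := Finset.single_le_sum (f := (D j).n) (fun _ _ => Nat.zero_le _) (Finset.mem_univ p)
        show (D j).n p ≤ 3
        omega
      · show (D j).μ ≤ 3
        omega
  have hs' : ∀ᶠ j in hyperfilter ℕ, D j ∈ 𝒟 j ∧ (D j).n = n ∧ (D j).β = β ∧ (D j).μ = μ :=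
    hs.mono fun j hj => ⟨hD j, by simpa using hj⟩
  obtain ⟨S1, -⟩ := hC D n β μ hs' 1 one_pos
  obtain ⟨d, t, R, he, hx, hy, ht, ha, hp, hw, hF⟩ := setup2 hU hN e
    (fun (p : Us n) j => (D j).x p) (fun p j => (D j).y p) S1.pts.inl
  obtain ⟨j0, F, τ, hτ, -⟩ := hF.exists
  have := hU.ac
  have z := key hA hB F _ _ _ _ _ _ ht ha hp.de (fun _ => hp)
    (nd2 hR F hτ _ ((Fintype.card_subtype_le _).trans (by simp)) _ _ (fun p => (n p : ℤ))
      (fun p => by simpa using p.2) ((∑ p, n p + β.card + 2 * μ : ℕ) : ℤ) hp hw) hh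
    (fun k => by rw [coe_coeff, coeff_gm]; exact k0 k) 1 c hc fun k hk _ =>
      hC.bd hu (B := 1) (Eventually.of_forall fun j => by simpa using hm' j) D n β μ hs' k hk
  obtain ⟨r, hr'⟩ := ult_big fun (r : Fin 3 ⊕ Fin 3) j => h1 (Sum.elim (D j).x (D j).y r)
  have h6 := hl _ _ hr'
  have h7 : h (gm fun j => Sum.elim (D j).x (D j).y r) = 0 := by
    have z0 : h 0 = 0 := all_zero h0 hh z isAlgebraic_zero
    have jk : ∀ p, n p = 0 → ∀ᶠ j in hyperfilter ℕ, (D j).x p = 0 ∧ (D j).y p = 0 := fun p h =>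
      hs'.mono fun j hj => (hr j _ hj.1).junk p (by rw [hj.2.1, h])
    rcases r with p | p <;> by_cases hp : n p = 0
    · rw [← z0, ← map_zero gm]
      exact congrArg h (gm_eq.2 ((jk p hp).mono fun j hj => hj.1))
    · exact all_zero h0 hh z (ha _ (hx ⟨p, hp⟩))
    · rw [← z0, ← map_zero gm]
      exact congrArg h (gm_eq.2 ((jk p hp).mono fun j hj => hj.2))
    · exact all_zero h0 hh z (ha _ (hy ⟨p, hp⟩))
  rw [h7] at h6
  simp at h6

end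

end Pool.Agent.MP_8d06cc_nt.AB
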