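import Pool.Agent.MP_8d06cc_nt.AB.Core4

/-! The height theorem from the blocks. -/

set_option autoImplicit false

namespace Pool.Agent.MP_8d06cc_nt.AB

open Polynomial Filter Topology
open MP_216eb3_nt.H66 (Qb Ks gm h1 h1_nonneg)

noncomputable section

theorem nd_of {E : Type} [Field E] [CharZero E] {d : ℕ} {t : Fin d → E} {R : Subalgebra ℚ E}
    {F : Fam t R} {e : Fin 8 → R} {n : ℕ} {a b : Fin n → R} (h : ND1 F e a b)
    {ι : Fin (n + 1) → Type} [∀ i, Fintype (ι i)] (x y : ∀ i, ι i → R) (m : ∀ i, ι i → ℤ)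
    (ν : Fin (n + 1) → ℤ) (h0 : IsEmpty (ι 0)) (hν : ν 0 ≠ 0) (p0 : ∀ i : Fin n, ι i.succ)
    (hp : ∀ i p, p = p0 i) (hx : ∀ i, x _ (p0 i) = a i) (hy : ∀ i, y _ (p0 i) = b i)
    (hm : ∀ i, m _ (p0 i) ≠ 0) : ND F e x y m ν fun l : Empty => l.elim := by
  obtain ⟨f0, Z, rn, s, τ, hτ, h1, h2, h3⟩ := h
  refine ⟨f0, Z, rn, s, τ, hτ, h1, fun i p => ?_, fun ξ h4 _ => ?_⟩
  · induction i using Fin.cases with
    | zero => exact h0.elim p
    | succ i => rw [hp i p, hx]; exact h2 i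
  · have hI : ∀ j, BtI (rn.Λ (fz fun i => F.Y τ (e i)) s) (fun i => F.Y τ (e i))
        (fun i => F.D τ ξ (e i)) j = 0 := fun j => by
      have := h4 0 j
      simpa [BtE, hν] using this
    refine h3 ξ (fun i j => ?_) hI
    have := h4 i.succ j
    rw [BtE, hI, Fintype.sum_eq_single (p0 i) fun p h => absurd (hp i p) h, hx, hy] at this
    simpa [hm i] using this

theorem us_one (p : Us ![1, 0, 0]) : p = ⟨0, by simp⟩ := by
  obtain ⟨p, hp⟩ := p
  fin_cases p
  · rfl
  · simp at hp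
  · simp at hp

theorem unit_gm {u : ℕ → Qb} (h : ∀ j, u j ≠ 0) : IsUnit (gm u) :=
  (IsUnit.of_mul_eq_one u⁻¹ (funext fun j => mul_inv_cancel₀ (h j))).map gm

theorem core (hU : StmtULT) (hG : StmtHGT) (h0 : StmtH0) (hB : StmtHB) (hD : StmtRED)
    (hI : StmtISO) (hA : StmtAN) (hN : StmtINIT) (hR : StmtRN) : StmtHT := by
  intro m
  by_contra hn
  let g := Set.Infinite.natEmbedding _ hn
  choose z hz N T hT rg using fun j => (g j).2
  let zq : ℕ → NF Qb m := fun j => (z j).map (algebraMap ℚ Qb)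
  choose e he using fun j => exists_roots (zq j).mon (zq j).deg
  obtain ⟨𝒟, hf, hr, hpt, hin, c, hc, hC⟩ := hD m zq N (fun j => (T j).map (algebraMap ℚ Qb)) e
    (fun j => (hT j).map _) he
  let w : Fin 8 ⊕ Fin (m + 2) ⊕ Fin (m + 2) → ℕ → Qb := Sum.elim (fun k j => (fz (e j)).coeff k)
    (Sum.elim (fun i j => (zq j).a i) fun i j => (zq j).b i)
  let H : ℕ → ℝ := fun j => ∑ r, h1 (w r j)
  have hw : ∀ r j, h1 (w r j) ≤ H j := fun r j =>
    Finset.single_le_sum (f := fun r => h1 (w r j)) (fun _ _ => h1_nonneg _) (Finset.mem_univ r)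
  have hH : Tendsto H (hyperfilter ℕ) atTop := tendsto_atTop.2 fun b => by
    have inj : Function.Injective fun j (k : Fin 8) => (z j).f.coeff k := fun i j h => by
      refine g.injective (Subtype.ext ?_)
      rw [← hz, ← hz]
      ext k
      rcases lt_trichotomy k 8 with hk | rfl | hk
      · exact congrFun h ⟨k, hk⟩
      · have a := (z i).mon.coeff_natDegree
        have b := (z j).mon.coeff_natDegree
        rw [NF.deg] at a b
        rw [a, b]
      · rw [coeff_eq_zero_of_natDegree_lt (by rw [NF.deg]; exact hk),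
          coeff_eq_zero_of_natDegree_lt (by rw [NF.deg]; exact hk)]
    have fi := (Set.Finite.pi' fun _ : Fin 8 => hU.nc b).preimage inj.injOn
    refine Filter.mem_of_superset fi.compl_mem_hyperfilter fun j hj => ?_
    by_contra hl
    refine hj fun k => le_trans (le_of_eq ?_) ((hw (.inl k) j).trans (not_le.1 hl).le)
    show _ = h1 ((fz (e j)).coeff k)
    rw [← he]
    exact congrArg h1 (coeff_map _ _).symm
  obtain ⟨B, hBd⟩ := case2 hU hG h0 hB hA hN hR hc hC hf hr (fun j => ⟨_, hin j⟩) hH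
    fun j k => hw (.inl k) j
  obtain ⟨h, hh, hu, hl⟩ := hG H hH
  obtain ⟨d, t, R, hE, hx, hy, ht, ha, hp, ho, hF⟩ := setup2 hU hN e (fun i j => (zq j).a i)
    (fun i j => (zq j).b i) ⟨fun i i' hi => by
      rw [← map_sub]
      exact unit_gm fun j => ((hr j _ (hin j)).pts.de i i' hi).ne_zero, fun i i' hi => by
      rw [← map_sub]
      exact unit_gm fun j => sub_ne_zero.2 ((zq j).ainj.ne hi),
      fun i => unit_gm fun j => (zq j).b0 i, fun i => by
      rw [← fz_map gm fun i j => e j i, eval_map_apply, ← map_pow]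
      congr 1
      funext j
      have := (zq j).hb i
      rw [he] at this
      simpa [fz, eval_prod] using this⟩
  obtain ⟨j0, F, τ, hτ, y1, y2, y3⟩ := hF.exists
  have em : emb.comp (algebraMap ℚ Qb) = algebraMap ℚ ℂ := RingHom.ext_rat _ _
  have f1 : ((z j0).map (algebraMap ℚ ℂ)).f = fz fun i => F.Y τ ⟨_, hE i⟩ := by
    simp only [y1]
    rw [← fz_map, ← he]
    exact (congrArg (fun φ => (z j0).f.map φ) em).symm.trans (map_map _ _ _).symm
  have f2 : ∀ i, ((z j0).map (algebraMap ℚ ℂ)).a i = F.Y τ ⟨_, hx i⟩ := fun i => by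
    rw [y2]; exact (DFunLike.congr_fun em _).symm
  have f3 : ∀ i, ((z j0).map (algebraMap ℚ ℂ)).b i = F.Y τ ⟨_, hy i⟩ := fun i => by
    rw [y3]; exact (DFunLike.congr_fun em _).symm
  have nd := hI Ks d t R F m _ _ _ ((z j0).map (algebraMap ℚ ℂ)) (N j0)
    ((T j0).map (algebraMap ℚ ℂ)) hp
    (Subtype.ext ((congrArg gm (funext fun j => (zq j).a0)).trans (map_zero gm)))
    (Subtype.ext ((congrArg gm (funext fun j => (zq j).a1)).trans (map_one gm))) τ hτ f1 f2 f3
    ((hT j0).map _) (rg j0 _ ⟨rfl, fun _ => rfl, fun _ => rfl⟩) fun σ hσ g1 g2 g3 => by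
      funext i
      rw [← F.crd σ hσ, ← F.crd τ hτ]
      rcases ho i (F.mem i) with ⟨k, h⟩ | ⟨p, h⟩ | ⟨p, h⟩ <;> rw [h]
      · rw [← coeff_map, ← coeff_map, fz_map, fz_map, ← g1, ← f1]
      · rw [← g2, ← f2]
      · rw [← g3, ← f3]
  let D : Fin (m + 3) → ℕ → Dv Qb :=
    Fin.cases (fun _ => Dv.inf Qb) fun i j => Dv.pt ((zq j).a i) ((zq j).b i)
  have hxy : ∀ i (p : Us (D i 0).n), (gm fun j => (D i j).x p) ∈ R ∧
      (gm fun j => (D i j).y p) ∈ R := fun i p => by
    induction i using Fin.cases with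
    | zero => exact absurd rfl p.2
    | succ i => rw [us_one p]; exact ⟨hx i, hy i⟩
  have hs : ∀ i, ∀ᶠ j in hyperfilter ℕ, D i j ∈ 𝒟 j ∧ (D i j).n = (D i 0).n ∧
      (D i j).β = (D i 0).β ∧ (D i j).μ = (D i 0).μ := fun i => Eventually.of_forall fun j => by
    induction i using Fin.cases with
    | zero => exact ⟨hin j, rfl, rfl, rfl⟩
    | succ i => exact ⟨hpt j i, rfl, rfl, rfl⟩
  have := hU.ac
  have z0 := key hA hB F _ (fun i p => ⟨_, (hxy i p).1⟩) (fun i p => ⟨_, (hxy i p).2⟩)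
    (fun i p => ((D i 0).n p : ℤ))
    (fun i => ((∑ p, (D i 0).n p + (D i 0).β.card + 2 * (D i 0).μ : ℕ) : ℤ)) _ ht ha hp.de
    (fun i => by
      induction i using Fin.cases with
      | zero => exact ⟨hp.de, fun p => absurd rfl p.2, fun p => absurd rfl p.2,
          fun p => absurd rfl p.2⟩
      | succ i => exact ⟨hp.de, fun p q h => absurd ((us_one p).trans (us_one q).symm) h,
          fun p => by rw [us_one p]; exact hp.uy i, fun p => by rw [us_one p]; exact hp.eqn i⟩)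
    (nd_of nd _ _ _ _ ⟨fun p => p.2 rfl⟩ (by simp [D, Dv.inf]) (fun _ => ⟨0, one_ne_zero⟩)
      (fun _ => us_one) (fun _ => rfl) (fun _ => rfl) fun _ => one_ne_zero) hh (fun l => l.elim)
    B c hc fun k hk i => Clo.bd hC hu hBd (D i) _ _ _ (hs i) k hk
  obtain ⟨r, hr'⟩ := ult_big fun r j => h1 (w r j)
  have h6 := hl _ _ hr'
  have h7 : h (gm (w r)) = 0 := by
    refine all_zero h0 hh z0 (ha _ ?_)
    rcases r with k | p | p
    · have := ((fz fun i => (⟨_, hE i⟩ : R)).coeff k).2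
      rw [coe_coeff, coeff_gm] at this
      exact this
    · exact hx p
    · exact hy p
  rw [h7, nonpos_iff_eq_zero, ENNReal.ofReal_eq_zero] at h6
  exact absurd h6 (not_le.2 (by positivity))

end

end Pool.Agent.MP_8d06cc_nt.AB
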