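import Pool.Agent.MP_8d06cc_nt.DA.Defs
import Pool.Agent.MP_216eb3_nt.H66.Transfer

/-! Working definitions for the finiteness of curves with at least thirteen points. -/

set_option autoImplicit false

namespace Pool.Agent.MP_8d06cc_nt.AB

open Polynomial Filter Topology
open DA (WW PD)

noncomputable section

/-! ### Normal forms -/

/-- A valued field with residue field the complex numbers and archimedean value group. -/
structure VF (L : Type) [Field L] [Algebra ℂ L] where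
  O : ValuationSubring L
  red : O →+* ℂ
  cst : ℂ →+* O
  cst_eq : ∀ c, (cst c : L) = algebraMap ℂ L c
  red_cst : ∀ c, red (cst c) = c
  ker : ∀ x : O, red x = 0 ↔ O.valuation x < 1
  arch : ∀ x y : L, O.valuation x < 1 → y ≠ 0 → ∃ m : ℕ, O.valuation x ^ m < O.valuation y

/-- A monic octic with `m + 2` marked finite points, the first two over `0` and `1`. -/
structure NF (k : Type) [Field k] (m : ℕ) where
  f : k[X]
  a : Fin (m + 2) → k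
  b : Fin (m + 2) → k
  mon : f.Monic
  deg : f.natDegree = 8
  sep : f.Separable
  a0 : a 0 = 0
  a1 : a 1 = 1
  ainj : Function.Injective a
  hb : ∀ i, b i ^ 2 = f.eval (a i)
  b0 : ∀ i, b i ≠ 0

/-- Pell solutions: `A0 + B0 y` for the points at infinity, `A i + B i y` for the others. -/
structure TD (k : Type) [Field k] (m : ℕ) where
  A0 : k[X]
  B0 : k[X]
  A : Fin (m + 2) → k[X]
  B : Fin (m + 2) → k[X]

/-- transport of the solutions -/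
def TD.map {k K : Type} [Field k] [Field K] {m : ℕ} (T : TD k m) (h : k →+* K) : TD K m :=
  ⟨T.A0.map h, T.B0.map h, fun i => (T.A i).map h, fun i => (T.B i).map h⟩

/-- All marked points are torsion of order dividing `N`. -/
structure NF.Tor {k : Type} [Field k] {m : ℕ} (z : NF k m) (N : ℕ) (T : TD k m) : Prop where
  dA0 : T.A0.natDegree = N
  dB0 : T.B0.natDegree + 4 ≤ N
  eq0 : ∃ c, c ≠ 0 ∧ T.A0 ^ 2 - z.f * T.B0 ^ 2 = C c
  dA : ∀ i, (T.A i).natDegree ≤ N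
  dB : ∀ i, (T.B i).natDegree + 4 ≤ N
  eqn : ∀ i, ∃ c, c ≠ 0 ∧ T.A i ^ 2 - z.f * T.B i ^ 2 = C c * (X - C (z.a i)) ^ (2 * N)
  hA : ∀ i, (T.A i).eval (z.a i) ≠ 0
  sgn : ∀ i, (T.A i).eval (z.a i) + (T.B i).eval (z.a i) * z.b i = 0

/-- `w` is the image of `z`. -/
def NF.Img {k K : Type} [Field k] [Field K] {m : ℕ} (z : NF k m) (h : k →+* K) (w : NF K m) :
    Prop := w.f = z.f.map h ∧ (∀ i, w.a i = h (z.a i)) ∧ ∀ i, w.b i = h (z.b i)

/-- Convergence of all coefficients. -/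
def Lim (p : ℕ → ℂ[X]) (q : ℂ[X]) : Prop :=
  ∀ i, Tendsto (fun n => (p n).coeff i) atTop (𝓝 (q.coeff i))

/-- `(z, T)` is a limit of other torsion data of the same order. -/
def Near {m : ℕ} (z : NF ℂ m) (N : ℕ) (T : TD ℂ m) : Prop :=
  ∃ (y : ℕ → NF ℂ m) (S : ℕ → TD ℂ m), (∀ n, (y n).Tor N (S n)) ∧
    (∀ n, ¬ ((y n).f = z.f ∧ (y n).a = z.a ∧ (y n).b = z.b)) ∧
    Lim (fun n => (y n).f) z.f ∧ Tendsto (fun n => (y n).a) atTop (𝓝 z.a) ∧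
    Tendsto (fun n => (y n).b) atTop (𝓝 z.b) ∧
    Lim (fun n => (S n).A0) T.A0 ∧ Lim (fun n => (S n).B0) T.B0 ∧
    (∀ i, Lim (fun n => (S n).A i) (T.A i)) ∧ ∀ i, Lim (fun n => (S n).B i) (T.B i)

/-- A rational torsion datum that is isolated among the complex ones. -/
def Rigid {m : ℕ} (z : NF ℚ m) : Prop := ∃ (N : ℕ) (T : TD ℚ m), z.Tor N T ∧
  ∀ w : NF ℂ m, z.Img (algebraMap ℚ ℂ) w → ¬ Near w N (T.map (algebraMap ℚ ℂ))

/-! ### Real normalisation -/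

/-- the monic polynomial with roots `e` -/
def fz {R : Type} [CommRing R] (e : Fin 8 → R) : R[X] := ∏ i, (X - C (e i))

/-- the value of a quadratic polynomial -/
def qv (q : Fin 3 → ℂ) (x : ℂ) : ℂ := ∑ j, q j * x ^ (j : ℕ)

/-- `Λ` projects forms `ρ dx / y` to holomorphic forms and kills logarithmic derivatives. -/
structure Proj (f : ℂ[X]) (Γ : Set ℂ) (Λ : (ℂ → ℂ) → Fin 3 → ℂ) : Prop where
  add : ∀ ρ σ, ContinuousOn ρ Γ → ContinuousOn σ Γ → Λ (fun x => ρ x + σ x) = Λ ρ + Λ σ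
  smul : ∀ (c : ℝ) ρ, ContinuousOn ρ Γ → Λ (fun x => c * ρ x) = (c : ℂ) • Λ ρ
  congr : ∀ ρ σ, (∀ x ∈ Γ, ρ x = σ x) → Λ ρ = Λ σ
  quad : ∀ q, Λ (qv q) = q
  pell : ∀ A B : ℂ[X], (∀ x ∈ Γ, (A ^ 2 - f * B ^ 2).eval x ≠ 0) →
    Λ (fun x => (WW derivative f A B).eval x / (A ^ 2 - f * B ^ 2).eval x) = 0

/-- monic octics with coefficients near those of `f0` -/
def Cl (f0 : ℂ[X]) (ε : ℝ) (f : ℂ[X]) : Prop :=
  f.Monic ∧ f.natDegree = 8 ∧ ∀ i, ‖f.coeff i - f0.coeff i‖ < ε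

/-- Systems of cycles near `f0` that avoid `Z`. -/
structure RN (f0 : ℂ[X]) (Z : Finset ℂ) where
  ε : ℝ
  δ : ℝ
  K : ℝ
  n : ℕ
  Γ : Fin n → Set ℂ
  Λ : ℂ[X] → Fin n → (ℂ → ℂ) → Fin 3 → ℂ
  ε0 : 0 < ε
  δ0 : 0 < δ
  K0 : 0 < K
  proj : ∀ f s, Cl f0 ε f → Proj f (Γ s) (Λ f s)
  rad : ∀ s, ∀ x ∈ Γ s, ‖x‖ ≤ K
  bdd : ∀ f s ρ (M : ℝ), Cl f0 ε f → ContinuousOn ρ (Γ s) → 0 ≤ M → (∀ x ∈ Γ s, ‖ρ x‖ ≤ M) →
    ‖Λ f s ρ‖ ≤ K * M
  far : ∀ U : Finset ℂ, U.card ≤ 3 → ∃ s, ∀ u ∈ U, ∀ x ∈ Γ s, δ ≤ ‖x - u‖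
  farZ : ∀ s, ∀ z ∈ Z, ∀ x ∈ Γ s, 2 * δ ≤ ‖x - z‖
  indep : ∀ f s s' u y, Cl f0 ε f → (∃ z ∈ Z, ‖u - z‖ < δ) →
    Λ f s (fun x => y / (x - u)) = Λ f s' (fun x => y / (x - u))
  indep3 : ∀ f s s', Cl f0 ε f → Λ f s (fun x => x ^ 3) = Λ f s' (fun x => x ^ 3)
  cont : ∀ f, Cl f0 ε f → ∀ η : ℝ, 0 < η → ∃ ε' : ℝ, 0 < ε' ∧ ∀ g, Cl f0 ε g → Cl f ε' g →
    ∀ s ρ (M : ℝ), ContinuousOn ρ (Γ s) → 0 ≤ M → (∀ x ∈ Γ s, ‖ρ x‖ ≤ M) →
      ‖Λ g s ρ - Λ f s ρ‖ ≤ η * M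

/-- the pairing with the motion `ev` of the roots `e` -/
def Sg (e ev : Fin 8 → ℂ) (g : ℂ → ℂ) (j : Fin 3) : ℂ :=
  ∑ i, g (e i) * ev i * e i ^ (j : ℕ) / ∏ i' ∈ Finset.univ.erase i, (e i - e i')

/-- the derivative of the Betti coordinates of the class of a moving finite point -/
def Bt (Λ : (ℂ → ℂ) → Fin 3 → ℂ) (e ev : Fin 8 → ℂ) (x y xv : ℂ) (j : Fin 3) : ℂ :=
  xv * x ^ (j : ℕ) / y + Sg e ev (fun t => y / (t - x) - qv (Λ fun s => y / (s - x)) t) j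

/-- the same for the points at infinity -/
def BtI (Λ : (ℂ → ℂ) → Fin 3 → ℂ) (e ev : Fin 8 → ℂ) (j : Fin 3) : ℂ :=
  Sg e ev (fun t => t ^ 3 - qv (Λ fun s => s ^ 3) t) j

/-- A complex point with a tangent vector. -/
structure Jet (R : Type) [CommRing R] where
  ev : R →+* ℂ
  dt : R → ℂ
  add : ∀ a b, dt (a + b) = dt a + dt b
  mul : ∀ a b, dt (a * b) = ev a * dt b + ev b * dt a

/-- the derivative for a formal sum of points -/
def BtE {R ι : Type} [CommRing R] [Fintype ι] (Λ : (ℂ → ℂ) → Fin 3 → ℂ) (ev : R →+* ℂ)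
    (dt : R → ℂ) (e : Fin 8 → R) (x y : ι → R) (n : ι → ℤ) (ν : ℤ) (j : Fin 3) : ℂ :=
  ∑ p, (n p : ℂ) * Bt Λ (fun i => ev (e i)) (fun i => dt (e i)) (ev (x p)) (ev (y p))
    (dt (x p)) j + (ν : ℂ) * BtI Λ (fun i => ev (e i)) (fun i => dt (e i)) j

/-- Points of the curve with invertible ordinates and distinct abscissas. -/
structure Pts {R ι : Type} [CommRing R] (e : Fin 8 → R) (x y : ι → R) : Prop where
  de : ∀ i j, i ≠ j → IsUnit (e i - e j)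
  dx : ∀ p q, p ≠ q → IsUnit (x p - x q)
  uy : ∀ p, IsUnit (y p)
  eqn : ∀ p, y p ^ 2 = (fz e).eval (x p)

/-- A function whose zeros are the points `(x p, ± y p)` with the orders `|n p|`. -/
def Cert {R ι : Type} [CommRing R] [Fintype ι] (e : Fin 8 → R) (x y : ι → R) (n : ι → ℤ)
    (ν : ℤ) : Prop :=
  ∃ (A B : R[X]) (M : ℕ) (c : R), IsCoprime A B ∧ IsUnit c ∧
    A ^ 2 - fz e * B ^ 2 = C c * ∏ p, (X - C (x p)) ^ (n p).natAbs ∧
    A.degree ≤ (M : ℕ) ∧ B.degree < ((M - 3 : ℕ) : WithBot ℕ) ∧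
    (∀ p, 0 < n p → A.eval (x p) + B.eval (x p) * y p = 0) ∧
    (∀ p, n p < 0 → A.eval (x p) - B.eval (x p) * y p = 0) ∧
    ((ν = 0 ∧ ∑ p, (n p).natAbs = 2 * M) ∨
      (4 ≤ M ∧ IsUnit (B.coeff (M - 4)) ∧ ∃ σ : ℤ, (σ = 1 ∨ σ = -1) ∧
        A.coeff M = σ * B.coeff (M - 4) ∧ ν = σ * (2 * M - ∑ p, |n p|)))

/-! ### Families of complex points -/

/-- `u` is algebraic over the field generated by `t` -/
def Alg {E : Type} [Field E] [CharZero E] {d : ℕ} (t : Fin d → E) (u : E) : Prop :=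
  IsAlgebraic (IntermediateField.adjoin ℚ (Set.range t)) u

/-- A smooth family of complex points of `R` with the coordinates `t`. -/
structure Fam {E : Type} [Field E] [CharZero E] {d : ℕ} (t : Fin d → E) (R : Subalgebra ℚ E) where
  V : Set (Fin d → ℂ)
  Y : (Fin d → ℂ) → R →+* ℂ
  op : IsOpen V
  mem : ∀ i, t i ∈ R
  crd : ∀ τ ∈ V, ∀ i, Y τ ⟨t i, mem i⟩ = τ i
  sm : ∀ r, ContDiffOn ℂ 2 (fun τ => Y τ r) V

/-- the derivative in the direction `ξ` -/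
def Fam.D {E : Type} [Field E] [CharZero E] {d : ℕ} {t : Fin d → E} {R : Subalgebra ℚ E}
    (F : Fam t R) (τ ξ : Fin d → ℂ) (r : R) : ℂ := fderiv ℂ (fun σ => F.Y σ r) τ ξ

/-- `g` polynomials in `t` that are independent over the polynomials in `s` -/
def Big {E : Type} [Field E] [CharZero E] {d : ℕ} (s t : Fin d → E) (g : ℕ) : Prop :=
  ∃ P : Fin g → MvPolynomial (Fin d) ℚ, ∀ Q : Fin g → MvPolynomial (Fin d) ℚ,
    ∑ a, MvPolynomial.aeval s (Q a) * MvPolynomial.aeval t (P a) = 0 → ∀ a, Q a = 0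

/-- Non-degeneracy at some point of the family. -/
def ND {E : Type} [Field E] [CharZero E] {d : ℕ} {t : Fin d → E} {R : Subalgebra ℚ E}
    (F : Fam t R) (e : Fin 8 → R) {n : ℕ} {ι : Fin n → Type} [∀ i, Fintype (ι i)] (x y : ∀ i, ι i → R)
    (m : ∀ i, ι i → ℤ) (ν : Fin n → ℤ) {κ : Type} (kap : κ → R) : Prop :=
  ∃ (f0 : ℂ[X]) (Z : Finset ℂ) (rn : RN f0 Z) (s : Fin rn.n), ∃ τ ∈ F.V,
    Cl f0 rn.ε (fz fun i => F.Y τ (e i)) ∧ (∀ i p, ∃ z ∈ Z, ‖F.Y τ (x i p) - z‖ < rn.δ) ∧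
    ∀ ξ, (∀ i j, BtE (rn.Λ (fz fun i => F.Y τ (e i)) s) (F.Y τ) (F.D τ ξ) e (x i) (y i) (m i)
      (ν i) j = 0) → (∀ l, F.D τ ξ (kap l) = 0) → ξ = 0

/-- Non-degeneracy for the marked points. -/
def ND1 {E : Type} [Field E] [CharZero E] {d : ℕ} {t : Fin d → E} {R : Subalgebra ℚ E}
    (F : Fam t R) (e : Fin 8 → R) {n : ℕ} (a b : Fin n → R) : Prop :=
  ∃ (f0 : ℂ[X]) (Z : Finset ℂ) (rn : RN f0 Z) (s : Fin rn.n), ∃ τ ∈ F.V,
    Cl f0 rn.ε (fz fun i => F.Y τ (e i)) ∧ (∀ i, ∃ z ∈ Z, ‖F.Y τ (a i) - z‖ < rn.δ) ∧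
    ∀ ξ, (∀ i j, Bt (rn.Λ (fz fun i => F.Y τ (e i)) s) (fun i => F.Y τ (e i))
      (fun i => F.D τ ξ (e i)) (F.Y τ (a i)) (F.Y τ (b i)) (F.D τ ξ (a i)) j = 0) →
      (∀ j, BtI (rn.Λ (fz fun i => F.Y τ (e i)) s) (fun i => F.Y τ (e i))
        (fun i => F.D τ ξ (e i)) j = 0) → ξ = 0

/-- At most three new points that represent `N` times the given class. -/
structure Step {E ι : Type} [Field E] [Fintype ι] (e : Fin 8 → E) (x y : ι → E) (m : ι → ℤ)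
    (ν : ℤ) (N : ℕ) where
  g : ℕ
  x' : Fin g → E
  y' : Fin g → E
  m' : Fin g → ℤ
  ε : ι → ℤ
  ε0 : ℤ
  g3 : g ≤ 3
  bm : ∀ q, |m' q| ≤ 12
  bε : ∀ p, |ε p| ≤ 12
  bε0 : |ε0| ≤ 12
  pts : Pts e (Sum.elim x x') (Sum.elim y y')
  cert : Cert e (Sum.elim x x') (Sum.elim y y') (Sum.elim (fun p => -(N * m p) + ε p) m')
    (-(N * ν) + ε0)

/-! ### Degrees and heights -/

/-- polynomials of degree at most `D` in the elements of `G` -/
def Fil {E : Type} [Field E] [CharZero E] (G : Set E) (D : ℕ) : Submodule ℚ E :=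
  Submodule.span ℚ (insert 1 G) ^ D

/-- `u` is a root of a cubic with coefficients in `Fil G D`, or a square root of the value of an
octic with coefficients in `Fil G 1` at such a root -/
def Small {E : Type} [Field E] [CharZero E] (G : Set E) (D : ℕ) (u : E) : Prop :=
  ∃ (x : E) (U : E[X]), U ≠ 0 ∧ U.natDegree ≤ 3 ∧ (∀ i, U.coeff i ∈ Fil G D) ∧ U.eval x = 0 ∧
    (u = x ∨ ∃ p : E[X], p.natDegree ≤ 8 ∧ (∀ i, p.coeff i ∈ Fil G 1) ∧ u ^ 2 = p.eval x)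

/-- A height without error terms. -/
structure Ht {E : Type} [Field E] [CharZero E] (h : E → ENNReal) : Prop where
  mul : ∀ a b, h (a * b) ≤ h a + h b
  inv : ∀ a, h a⁻¹ = h a
  pow : ∀ a (q : ℕ), h (a ^ q) = q * h a
  poly : ∀ (n : ℕ) (P : MvPolynomial (Fin n) ℚ) (s : Fin n → E),
    h (MvPolynomial.aeval s P) ≤ ∑ i, P.degreeOf i * h (s i)
  root : ∀ (n : ℕ) (a : Fin n → E) (r : E), 0 < n → r ^ n + ∑ i, a i * r ^ (i : ℕ) = 0 →
    h r ≤ ∑ i, h (a i)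

/-- A divisor: finite points with multiplicities `n` (zero: unused), the set `β` of branch points
and the multiplicity `μ` of the second point at infinity. -/
structure Dv (k : Type) where
  x : Fin 3 → k
  y : Fin 3 → k
  n : Fin 3 → ℕ
  β : Finset (Fin 8)
  μ : ℕ

/-- the degree -/
def Dv.r {k : Type} (D : Dv k) : ℕ := ∑ p, D.n p + D.β.card + D.μ

/-- the indices in use -/
abbrev Us (n : Fin 3 → ℕ) : Type := {p : Fin 3 // n p ≠ 0}

/-- Reduced divisors. -/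
structure Dv.Red {k : Type} [Field k] (D : Dv k) (e : Fin 8 → k) : Prop where
  deg : D.r ≤ 3
  pts : Pts e (fun p : Us D.n => D.x p) fun p : Us D.n => D.y p
  junk : ∀ p, D.n p = 0 → D.x p = 0 ∧ D.y p = 0

/-- the divisor of one finite point -/
def Dv.pt {k : Type} [Field k] (a b : k) : Dv k := ⟨![a, 0, 0], ![b, 0, 0], ![1, 0, 0], ∅, 0⟩

/-- the divisor of the second point at infinity -/
def Dv.inf (k : Type) [Field k] : Dv k := ⟨0, 0, 0, ∅, 1⟩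

end

end Pool.Agent.MP_8d06cc_nt.AB
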