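import Pool.Agent.MP_8d06cc_nt.AB.Defs
import Pool.Agent.MP_8d06cc_nt.H27.Final

/-! Statements of the blocks. -/

set_option autoImplicit false

namespace Pool.Agent.MP_8d06cc_nt.AB

open Polynomial Filter Topology MeasureTheory
open DA (WW PD gam Rk2)
open MP_216eb3_nt.H66 (Qb Ks gm h1)
open H27 (Model Pic0 numPts)

noncomputable section

instance : CharZero Ks := ⟨fun a b h => by
  have h' : gm (a : ℕ → Qb) = gm (b : ℕ → Qb) := by simpa using h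
  obtain ⟨j, hj⟩ := (Germ.coe_eq.1 h').exists
  simpa using hj⟩

/-- Block NF: a curve of rank zero with thirteen points has a normal form. -/
def StmtNF : Prop := ∀ (f : ℚ[X]) (F : Type) [Field F] [Algebra ℚ F] (x y : F), Squarefree f →
  (f.natDegree = 7 ∨ f.natDegree = 8) → Model x y f → Module.rank ℤ (Pic0 ℚ F) = 0 →
  12 < numPts f → ∃ (m : ℕ) (z : NF ℚ m) (N : ℕ) (T : TD ℚ m), z.Tor N T ∧
    (m = 1 ∨ (m = 0 ∧ ∃ e : Fin 8 → ℚ, z.f = fz e)) ∧ ∃ x' y' : F, Model x' y' z.f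

/-- Block R3. -/
def StmtR3 : Prop := ∀ (c : ℝ) (e : Fin 8 → ℝ) (N : ℕ) (P : Fin 3 → PD ℝ), c < 0 →
  Function.Injective e → (∀ i, (P i).OK (C c * fz e) N) →
  (Function.Injective fun i => (P i).a) → LinearIndependent ℝ fun i => (P i).Q

/-- Block R4. -/
def StmtR4 : Prop := ∀ (L : Type) [Field L] [IsAlgClosed L] [Algebra ℂ L] (V : VF L) (f : L[X])
  (N : ℕ) (P : Fin 4 → PD L), f.natDegree = 8 → f.Separable → (∀ i, (P i).OK f N) →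
  (Function.Injective fun i => (P i).a) → Rk2 P →
  (∀ i j, i ≠ j → V.O.valuation (gam (P i) (P j)) = V.O.valuation (gam (P j) (P i))) →
  ∀ i j, i ≠ j → V.O.valuation (gam (P i) (P j)) = 1

/-- Block RIG (from DA, VAL, R3, R4). -/
def StmtRIG : Prop := ∀ (m : ℕ) (z : NF ℚ m) (N : ℕ) (T : TD ℚ m), z.Tor N T →
  (m = 1 ∨ (m = 0 ∧ ∃ e : Fin 8 → ℚ, z.f = fz e)) →
  ∀ w : NF ℂ m, z.Img (algebraMap ℚ ℂ) w → ¬ Near w N (T.map (algebraMap ℚ ℂ))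

/-- Block RN. -/
def StmtRN : Prop := ∀ (f0 : ℂ[X]) (Z : Finset ℂ), f0.Monic → f0.natDegree = 8 → f0.Separable →
  Nonempty (RN f0 Z)

/-- Block BREL. -/
def StmtBREL : Prop := ∀ (R ι : Type) [CommRing R] [Fintype ι] (J : Jet R) (e : Fin 8 → R)
  (x y : ι → R) (n : ι → ℤ) (ν : ℤ) (Γ : Set ℂ) (Λ : (ℂ → ℂ) → Fin 3 → ℂ), Pts e x y →
  Cert e x y n ν → Proj (fz fun i => J.ev (e i)) Γ Λ → (∀ p, J.ev (x p) ∉ Γ) →
  ∀ j, BtE Λ J.ev J.dt e x y n ν j = 0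

/-- Block EST. -/
def StmtEST : Prop := ∀ (f0 : ℂ[X]) (Z : Finset ℂ) (rn : RN f0 Z) (e1 : Fin 8 → ℂ),
  Function.Injective e1 → ∃ η K : ℝ, 0 < η ∧ 0 < K ∧ ∀ (e ev : Fin 8 → ℂ) (s : Fin rn.n),
    ‖e - e1‖ < η → Cl f0 rn.ε (fz e) → ‖BtI (rn.Λ (fz e) s) e ev‖ ≤ K * ‖ev‖ ∧
    ∀ x y xv yv : ℂ, y ≠ 0 → y ^ 2 = (fz e).eval x →
      2 * y * yv = ∑ i, (xv - ev i) * ∏ i' ∈ Finset.univ.erase i, (x - e i') →
      (∀ u ∈ rn.Γ s, rn.δ ≤ ‖u - x‖) → ‖Bt (rn.Λ (fz e) s) e ev x y xv‖ ≤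
        K * (‖xv‖ / (1 + ‖x‖ ^ 2) + ‖yv‖ / (1 + ‖y‖ ^ 2) + ‖ev‖)

/-- Block FAM, first part: every complex point of a suitable ring lies in a family. -/
def StmtINIT : Prop := ∀ (E : Type) [Field E] [CharZero E] (d : ℕ) (t : Fin d → E) (u : Set E),
  AlgebraicIndependent ℚ t → u.Finite → (∀ a ∈ u, Alg t a) → ∃ G : Set E, G.Finite ∧ u ⊆ G ∧
    (∀ a ∈ Algebra.adjoin ℚ G, Alg t a) ∧ ∀ y : Algebra.adjoin ℚ G →+* ℂ,
      ∃ F : Fam t (Algebra.adjoin ℚ G), ∃ τ ∈ F.V, F.Y τ = y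

/-- Block FAM, second part: families extend off a hypersurface. -/
def StmtEXT : Prop := ∀ (E : Type) [Field E] [CharZero E] (d : ℕ) (t : Fin d → E)
  (R : Subalgebra ℚ E) (u : Set E), AlgebraicIndependent ℚ t → (∀ a ∈ R, Alg t a) →
  (∀ i, t i ∈ R) → u.Finite → (∀ a ∈ u, Alg t a) →
    ∃ (R1 : Subalgebra ℚ E) (h : R ≤ R1) (Δ : MvPolynomial (Fin d) ℚ), u ⊆ R1 ∧ (∀ a ∈ R1, Alg t a) ∧
      Δ ≠ 0 ∧ ∀ (F : Fam t R), ∀ τ ∈ F.V, MvPolynomial.aeval τ Δ ≠ 0 → ∃ F1 : Fam t R1,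
        τ ∈ F1.V ∧ F1.V ⊆ F.V ∧ ∀ σ ∈ F1.V, ∀ r : R, F1.Y σ (Subalgebra.inclusion h r) = F.Y σ r

/-- Block CNT: the area inequality. -/
def StmtCNT : Prop := ∀ d m : ℕ, ∃ c : ℝ, 0 < c ∧ ∀ (E : Type) [Field E] [CharZero E]
  (t : Fin d → E) (R : Subalgebra ℚ E) (σ : Fin m → R) (l : Fin m → ℝ) (V0 : Set (Fin d → ℂ))
  (Δ : MvPolynomial (Fin d) ℚ), AlgebraicIndependent ℚ t → (∀ a ∈ R, Alg t a) → (∀ i, 0 < l i) →
  IsOpen V0 → V0.Nonempty → volume V0 ≠ ⊤ → Δ ≠ 0 →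
  (∀ τ ∈ V0, MvPolynomial.aeval τ Δ ≠ 0 → ∃ F : Fam t R, τ ∈ F.V ∧
    ∀ ξ, ‖ξ‖ ≤ ∑ i, l i * (‖F.D τ ξ (σ i)‖ / (1 + ‖F.Y τ (σ i)‖ ^ 2))) →
  ∃ (I : Fin d → Fin m) (g : ℕ), Function.Injective I ∧ 0 < g ∧
    Big (fun k => (σ (I k) : E)) t g ∧ c * (volume V0).toReal ≤ g * ∏ k, l (I k) ^ 2

/-- Certificates descend to algebraically closed subfields. -/
def StmtDESC : Prop := ∀ (E ι : Type) [Field E] [Fintype ι] (K : Subfield E) [IsAlgClosed K]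
  (e : Fin 8 → K) (x y : ι → K) (n : ι → ℤ) (ν : ℤ),
  Cert (fun i => (e i : E)) (fun p => (x p : E)) (fun p => (y p : E)) n ν → Cert e x y n ν

/-- Block AN: growth of the degree. -/
def StmtAN : Prop := ∀ (E : Type) [Field E] [CharZero E] [IsAlgClosed E] (d : ℕ) (t : Fin d → E)
  (R : Subalgebra ℚ E) (F : Fam t R) (e : Fin 8 → R) (n : ℕ) (ι : Fin n → Type) [∀ i, Fintype (ι i)]
  (x y : ∀ i, ι i → R) (m : ∀ i, ι i → ℤ) (ν : Fin n → ℤ) (κ : Type) [Fintype κ] (kap : κ → R),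
  AlgebraicIndependent ℚ t → (∀ a ∈ R, Alg t a) → (∀ i j, i ≠ j → IsUnit (e i - e j)) →
  (∀ i, Pts e (x i) (y i)) → ND F e x y m ν kap →
  ∃ (c : ℝ) (N0 : ℕ), 0 < c ∧ ∀ N, N0 ≤ N →
    ∀ S : ∀ i, Step (fun k => (e k : E)) (fun p => (x i p : E)) (fun p => (y i p : E)) (m i)
      (ν i) N, (∀ i q, Alg t ((S i).x' q) ∧ Alg t ((S i).y' q)) →
      ∃ (s : Fin d → E) (I : Finset (Fin d)) (g : ℕ), 0 < g ∧ Big s t g ∧
        (∀ k ∈ I, ∃ i q, s k = (S i).x' q ∨ s k = (S i).y' q) ∧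
        (∀ k, k ∉ I → ∃ l, s k = kap l) ∧ c * (N : ℝ) ^ (2 * I.card) ≤ g

/-- Block ISO: an isolated torsion point forces non-degeneracy. -/
def StmtISO : Prop := ∀ (E : Type) [Field E] [CharZero E] (d : ℕ) (t : Fin d → E)
  (R : Subalgebra ℚ E) (F : Fam t R) (m : ℕ) (e : Fin 8 → R) (a b : Fin (m + 2) → R) (w : NF ℂ m) (N : ℕ)
  (T : TD ℂ m), Pts e a b → a 0 = 0 → a 1 = 1 → ∀ τ0 ∈ F.V,
    w.f = fz (fun i => F.Y τ0 (e i)) → (∀ i, w.a i = F.Y τ0 (a i)) →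
    (∀ i, w.b i = F.Y τ0 (b i)) → w.Tor N T → ¬ Near w N T →
    (∀ τ ∈ F.V, w.f = fz (fun i => F.Y τ (e i)) → (∀ i, w.a i = F.Y τ (a i)) →
      (∀ i, w.b i = F.Y τ (b i)) → τ = τ0) → ND1 F e a b

/-- the generators in which the degrees of block RED are measured -/
def gens {E ι : Type} [Field E] (e : Fin 8 → E) (x y : ι → E) : Set E :=
  Set.range (fz e).coeff ∪ Set.range x ∪ Set.range y ∪ Set.range fun p => (y p)⁻¹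

/-- Block RED: reduced divisors of the torsion classes. -/
def StmtRED : Prop := ∀ (m : ℕ) (z : ℕ → NF Qb m) (N : ℕ → ℕ) (T : ℕ → TD Qb m)
  (e : ℕ → Fin 8 → Qb), (∀ j, (z j).Tor (N j) (T j)) → (∀ j, (z j).f = fz (e j)) →
  ∃ 𝒟 : ℕ → Set (Dv Qb), (∀ j, (𝒟 j).Finite) ∧ (∀ j, ∀ D ∈ 𝒟 j, D.Red (e j)) ∧
    (∀ j i, Dv.pt ((z j).a i) ((z j).b i) ∈ 𝒟 j) ∧ (∀ j, Dv.inf Qb ∈ 𝒟 j) ∧
    ∃ c : ℕ, 0 < c ∧ ∀ (D : ℕ → Dv Qb) (n : Fin 3 → ℕ) (β : Finset (Fin 8)) (μ : ℕ),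
      (∀ᶠ j in hyperfilter ℕ, D j ∈ 𝒟 j ∧ (D j).n = n ∧ (D j).β = β ∧ (D j).μ = μ) →
      ∀ k : ℕ, 0 < k →
      ∃ S : Step (fun i => gm fun j => e j i) (fun p : Us n => gm fun j => (D j).x p)
          (fun p : Us n => gm fun j => (D j).y p) (fun p => (n p : ℤ))
          ((∑ p, n p + β.card + 2 * μ : ℕ) : ℤ) (4 * k),
        ∀ q, (∃ u v : ℕ → Qb, gm u = S.x' q ∧ gm v = S.y' q ∧
            ∀ᶠ j in hyperfilter ℕ, ∃ D' ∈ 𝒟 j, ∃ p, D'.x p = u j ∧ D'.y p = v j) ∧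
          Small (gens (fun i => gm fun j => e j i) (fun p : Us n => gm fun j => (D j).x p)
            fun p : Us n => gm fun j => (D j).y p) (c * k ^ 2) (S.x' q) ∧
          Small (gens (fun i => gm fun j => e j i) (fun p : Us n => gm fun j => (D j).x p)
            fun p : Us n => gm fun j => (D j).y p) (c * k ^ 2) (S.y' q)

/-- Block HB: comparison of heights (HAB and BEZ). -/
def StmtHB : Prop := ∀ (E : Type) [Field E] [CharZero E] (d : ℕ) (t : Fin d → E) (G : Set E),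
  AlgebraicIndependent ℚ t → G.Finite → (∀ g ∈ G, Alg t g) → (∀ i, t i ∈ G) →
  ∀ c : ℝ, 0 < c → ∃ K : ℕ, ∀ (h : E → ENNReal) (D g : ℕ) (s : Fin d → E) (I : Finset (Fin d)),
    Ht h → 0 < D → 0 < g → Big s t g → c * (D : ℝ) ^ I.card ≤ g → (∀ i ∈ I, Small G D (s i)) →
    (∀ i, i ∉ I → s i ∈ G) → ∀ j,
      (D : ENNReal) * h (t j) ≤ K * (∑ i ∈ I, h (s i) + D * ∑ i ∈ Iᶜ, h (s i))

/-- Heights of algebraic elements. -/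
def StmtH0 : Prop := ∀ (E : Type) [Field E] [CharZero E] (d : ℕ) (t : Fin d → E) (u : E),
  Alg t u → ∃ K : ℕ, ∀ h : E → ENNReal, Ht h → h u ≤ K * ∑ i, h (t i)

/-- Block HGT: the rescaled height on the ultrapower. -/
def StmtHGT : Prop := ∀ Λ : ℕ → ℝ, Tendsto Λ (hyperfilter ℕ) atTop →
  ∃ h : Ks → ENNReal, Ht h ∧
    (∀ (u : ℕ → Qb) (c : ℝ), (∀ᶠ j in hyperfilter ℕ, h1 (u j) ≤ c * Λ j) →
      h (gm u) ≤ ENNReal.ofReal c) ∧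
    ∀ (u : ℕ → Qb) (c : ℝ), (∀ᶠ j in hyperfilter ℕ, c * Λ j ≤ h1 (u j)) →
      ENNReal.ofReal c ≤ h (gm u)

/-- Northcott over the rationals, the ultrapower is algebraically closed, and specialisation. -/
structure StmtULT : Prop where
  nc : ∀ B : ℝ, {q : ℚ | h1 (algebraMap ℚ Qb q) ≤ B}.Finite
  ac : IsAlgClosed Ks
  sp : ∀ U : Set (ℕ → Qb), U.Finite → ∀ᶠ j in hyperfilter ℕ,
    ∃ ev : Algebra.adjoin ℚ (gm '' U) →+* Qb, ∀ u (hu : u ∈ U),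
      ev ⟨gm u, Algebra.subset_adjoin ⟨u, hu, rfl⟩⟩ = u j

/-- The height theorem. -/
def StmtHT : Prop := ∀ m : ℕ, {f : ℚ[X] | ∃ z : NF ℚ m, z.f = f ∧ Rigid z}.Finite

/-- The final statement. -/
def Main : Prop := ∃ S : Set ℚ[X], S.Finite ∧ (∀ g ∈ S, Squarefree g ∧ g.natDegree = 8) ∧
  ∀ (f : ℚ[X]) (F : Type) [Field F] [Algebra ℚ F] (x y : F), Squarefree f →
    (f.natDegree = 7 ∨ f.natDegree = 8) → Model x y f → Module.rank ℤ (Pic0 ℚ F) = 0 →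
    12 < numPts f → ∃ g ∈ S, ∃ x' y' : F, Model x' y' g

theorem main_of (h1 : StmtNF) (h2 : StmtRIG) (h3 : StmtHT) : Main := by
  refine ⟨_, (h3 0).union (h3 1), ?_, fun f F _ _ x y hs hd M hr hn => ?_⟩
  · rintro g (⟨z, rfl, -⟩ | ⟨z, rfl, -⟩) <;> exact ⟨z.sep.squarefree, z.deg⟩
  · obtain ⟨m, z, N, T, hT, hm, hM⟩ := h1 f F x y hs hd M hr hn
    have hz : Rigid z := ⟨N, T, hT, h2 m z N T hT hm⟩
    rcases hm with rfl | ⟨rfl, -⟩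
    · exact ⟨_, Or.inr ⟨z, rfl, hz⟩, hM⟩
    · exact ⟨_, Or.inl ⟨z, rfl, hz⟩, hM⟩

end

end Pool.Agent.MP_8d06cc_nt.AB
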