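import Pool.Agent.MP_8d06cc_nt.AB.Spec

/-! Northcott over the rationals and the ultrapower. -/

set_option autoImplicit false

namespace Pool.Agent.MP_8d06cc_nt.AB

open Filter
open MP_216eb3_nt.H66

theorem ult_nc (B : ℝ) : {q : ℚ | h1 (algebraMap ℚ Qb q) ≤ B}.Finite := by
  obtain ⟨L, _, -⟩ := exists_field Set.finite_empty
  refine ((Northcott.finite_le (h := Height.logHeight₁ (K := L))
    (B * Module.finrank ℚ L)).preimage (algebraMap ℚ L).injective.injOn).subset fun q hq => ?_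
  have := h1_eq L (algebraMap ℚ L q)
  have e : ((algebraMap ℚ L q : L) : Qb) = algebraMap ℚ Qb q := by simp
  rw [e] at this
  exact (div_le_iff₀ (finrank_pos' L)).1 (this ▸ hq)

theorem gm_surj : Function.Surjective gm := fun x => Germ.inductionOn x fun f => ⟨f, rfl⟩

theorem ult_ac : IsAlgClosed Ks := by
  refine IsAlgClosed.of_exists_root _ fun p hm hirr => ?_
  have hd : 0 < p.natDegree := hirr.natDegree_pos
  choose f hf using fun i : Fin p.natDegree => gm_surj (p.coeff i)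
  choose r hr using fun N => exists_root_fin hd fun i => f i N
  refine ⟨gm r, ?_⟩
  have e : r ^ p.natDegree + ∑ i : Fin p.natDegree, f i * r ^ (i : ℕ) = 0 := by
    ext N; simpa using hr N
  have e2 := congrArg gm e
  simp only [map_add, map_pow, map_sum, map_mul, map_zero, hf] at e2
  rw [Polynomial.eval_eq_sum_range, Finset.sum_range_succ, hm.coeff_natDegree,
    ← Fin.sum_univ_eq_sum_range (fun i => p.coeff i * gm r ^ i), ← e2]
  ring

theorem ult_sp (U : Set (ℕ → Qb)) (hU : U.Finite) : ∀ᶠ j in hyperfilter ℕ,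
    ∃ ev : Algebra.adjoin ℚ (gm '' U) →+* Qb, ∀ u (hu : u ∈ U),
      ev ⟨gm u, Algebra.subset_adjoin ⟨u, hu, rfl⟩⟩ = u j := by
  have := hU.to_subtype
  let ψ : MvPolynomial U ℚ →ₐ[ℚ] Algebra.adjoin ℚ (gm '' U) :=
    MvPolynomial.aeval fun u => ⟨gm u, Algebra.subset_adjoin ⟨u, u.2, rfl⟩⟩
  have sj : Function.Surjective (ψ : MvPolynomial U ℚ →+* Algebra.adjoin ℚ (gm '' U)) := by
    rintro ⟨x, hx⟩
    induction hx using Algebra.adjoin_induction with
    | mem x hx =>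
      obtain ⟨u, hu, rfl⟩ := hx
      exact ⟨MvPolynomial.X ⟨u, hu⟩, MvPolynomial.aeval_X _ _⟩
    | algebraMap q => exact ⟨_, ψ.commutes q⟩
    | add a b _ _ ha hb =>
      obtain ⟨p, hp⟩ := ha
      obtain ⟨q, hq⟩ := hb
      exact ⟨p + q, by rw [map_add, hp, hq]; rfl⟩
    | mul a b _ _ ha hb =>
      obtain ⟨p, hp⟩ := ha
      obtain ⟨q, hq⟩ := hb
      exact ⟨p * q, by rw [map_mul, hp, hq]; rfl⟩
  let ε : ℕ → MvPolynomial U ℚ →+* Qb := fun j =>
    MvPolynomial.eval₂Hom (algebraMap ℚ Qb) fun u => u.1 j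
  have cm : (Algebra.adjoin ℚ (gm '' U)).val.toRingHom.comp ψ = gm.comp (RingHom.pi ε) := by
    refine MvPolynomial.ringHom_ext' (RingHom.ext_rat _ _) fun u => ?_
    have e : RingHom.pi ε (MvPolynomial.X u) = u.1 := funext fun j => MvPolynomial.eval₂Hom_X' _ _ _
    rw [RingHom.comp_apply, RingHom.comp_apply, e]
    exact congrArg Subtype.val (MvPolynomial.aeval_X _ u)
  obtain ⟨S, hS⟩ := IsNoetherian.noetherian
    (RingHom.ker (ψ : MvPolynomial U ℚ →+* Algebra.adjoin ℚ (gm '' U)))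
  have h1 : ∀ᶠ j in hyperfilter ℕ, ∀ p ∈ S, ε j p = 0 := (eventually_all_finset S).2 fun p hp => by
    have a : (ψ : MvPolynomial U ℚ →+* Algebra.adjoin ℚ (gm '' U)) p = 0 :=
      RingHom.mem_ker.1 (hS ▸ Submodule.subset_span hp)
    have b := DFunLike.congr_fun cm p
    rw [RingHom.comp_apply, a, map_zero] at b
    exact gm_eq_zero.1 b.symm
  refine h1.mono fun j hj => ⟨RingHom.liftOfSurjective _ sj ⟨ε j, ?_⟩, fun u hu => ?_⟩
  · rw [← hS]
    exact Submodule.span_le.2 hj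
  · have e : (⟨gm u, Algebra.subset_adjoin ⟨u, hu, rfl⟩⟩ : Algebra.adjoin ℚ (gm '' U)) =
        (ψ : MvPolynomial U ℚ →+* Algebra.adjoin ℚ (gm '' U)) (MvPolynomial.X ⟨u, hu⟩) :=
      (MvPolynomial.aeval_X (fun u : U => (⟨gm u, Algebra.subset_adjoin ⟨u, u.2, rfl⟩⟩ :
        Algebra.adjoin ℚ (gm '' U))) ⟨u, hu⟩).symm
    rw [e, RingHom.liftOfSurjective_comp_apply]
    exact MvPolynomial.eval₂Hom_X' _ _ _

theorem ult : StmtULT := ⟨ult_nc, ult_ac, ult_sp⟩

end Pool.Agent.MP_8d06cc_nt.AB
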