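import Pool.Agent.MP_8d06cc_nt.AB.Pre
import Pool.Agent.MP_8d06cc_nt.R4.Final
import Pool.Agent.MP_8d06cc_nt.ISO.Main
import Pool.Agent.MP_8d06cc_nt.RED.All

/-! The final statement. -/

set_option autoImplicit false

namespace Pool.Agent.MP_8d06cc_nt.AB

theorem main : Main := pre R4.stmtR4 (ISO.iso RN.rn brel) fun _ => RED.red

end Pool.Agent.MP_8d06cc_nt.AB
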