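import Pool.Agent.MP_8d06cc_nt.AB.Core5
import Pool.Agent.MP_8d06cc_nt.AB.Ult
import Pool.Agent.MP_8d06cc_nt.NF.Main
import Pool.Agent.MP_8d06cc_nt.RIG.Fin
import Pool.Agent.MP_8d06cc_nt.RN.Main
import Pool.Agent.MP_8d06cc_nt.H9.Brel
import Pool.Agent.MP_8d06cc_nt.H9.Est
import Pool.Agent.MP_8d06cc_nt.AB75.Cnt
import Pool.Agent.MP_8d06cc_nt.AB75.Fam
import Pool.Agent.MP_8d06cc_nt.DESC.Main
import Pool.Agent.MP_8d06cc_nt.AN.Main
import Pool.Agent.MP_8d06cc_nt.HB.Main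
import Pool.Agent.MP_8d06cc_nt.HGT.Main

/-! The final statement from the last three blocks. -/

set_option autoImplicit false

namespace Pool.Agent.MP_8d06cc_nt.AB

theorem pre (h4 : StmtR4) (hI : StmtISO) (hD : StmtULT → StmtRED) : Main :=
  main_of NFm.stmtNF (RIG.rig h4) (core ult hgt HB.stmtH0 HB.stmtHB (hD ult) hI
    (AN.an brel est AB75.stmtEXT AB75.stmtCNT DESC.desc) AB75.stmtINIT RN.rn)

end Pool.Agent.MP_8d06cc_nt.AB
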